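import Pool.Agent.U374.Dn.Cube
set_option autoImplicit false

/-!
Cycles of smooth singular cubes, and the regulator of symbols of functions with logarithms.
-/

namespace Pool.Agent.U374.Dn

open MeasureTheory Set

open scoped Topology

open Pool.Agent.TH826.MK (tl pairing)

section single

variable {n : ℕ} {U : Fin (n + 2) → (Fin (n + 1) → ℝ) → ℂ}

theorem cont_jac {d : ℕ} {F : Fin d → (Fin d → ℝ) → ℂ} (h : ∀ i, Sm (F i)) :
    ContinuousOn (jac F) (Icc 0 1) := cont_det fun i => (h i).cont_pd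

theorem Sm.clm {d : ℕ} {u : (Fin d → ℝ) → ℂ} (h : Sm u) (L : ℂ →L[ℝ] ℂ) :
    Sm fun θ => L (u θ) := fun θ hθ => L.contDiff.contDiffAt.comp θ (h θ hθ)

theorem Sm.mul {d : ℕ} {u v : (Fin d → ℝ) → ℂ} (hu : Sm u) (hv : Sm v) :
    Sm fun θ => u θ * v θ := fun θ hθ => (hu θ hθ).mul (hv θ hθ)

theorem Sm.const_add {d : ℕ} {u : (Fin d → ℝ) → ℂ} (hu : Sm u) (c : ℂ) :
    Sm fun θ => c + u θ := fun θ hθ => contDiffAt_const.add (hu θ hθ)

/-- the first list of functions -/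
noncomputable def F0 (t : ℝ) (U : Fin (n + 2) → (Fin (n + 1) → ℝ) → ℂ) :
    Fin (n + 1) → (Fin (n + 1) → ℝ) → ℂ := fun i θ => Lt t (U i.succ θ)

/-- the other lists of functions -/
noncomputable def Fk (κ : ℝ) (t : ℝ) (U : Fin (n + 2) → (Fin (n + 1) → ℝ) → ℂ)
    (k : Fin (n + 1)) : Fin (n + 1) → (Fin (n + 1) → ℝ) → ℂ :=
  Function.update (fun j θ => Lt t (U (k.succ.succAbove j) θ)) 0
    fun θ => ((κ : ℂ) + Rl (U k.succ θ)) * Lt t (U 0 θ)

theorem sm_F0 (t : ℝ) (hU : ∀ i, Sm (U i)) (i : Fin (n + 1)) : Sm (F0 t U i) :=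
  (hU i.succ).clm (Lt t)

theorem sm_Fk (κ t : ℝ) (hU : ∀ i, Sm (U i)) (k i : Fin (n + 1)) : Sm (Fk κ t U k i) := by
  unfold Fk
  by_cases hi : i = 0
  · subst hi
    rw [Function.update_self]
    exact (((hU k.succ).clm Rl).const_add κ).mul ((hU 0).clm (Lt t))
  · rw [Function.update_of_ne hi]
    exact (hU _).clm (Lt t)

theorem Dd_eq_Rd (κ t : ℝ) (hU : ∀ i, Sm (U i)) {θ : Fin (n + 1) → ℝ}
    (hθ : θ ∈ Icc (0 : Fin (n + 1) → ℝ) 1) :
    Dd κ U t θ = Rd U t θ + (κ * jac (F0 t U) θ +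
      ∑ k : Fin (n + 1), (-1) ^ ((k : ℕ) + 1) * jac (Fk κ t U k) θ) := by
  have h0 : jac (F0 t U) θ = (Matrix.of fun i : Fin (n + 1) => row t (U i.succ) θ).det := by
    unfold jac
    congr 2
    funext i
    exact pd_comp_clm (hU i.succ) (Lt t) hθ
  have hk : ∀ k : Fin (n + 1), jac (Fk κ t U k) θ =
      ((κ : ℂ) + Rl (U k.succ θ)) *
        (Matrix.of fun j : Fin (n + 1) => row t (U (k.succ.succAbove j)) θ).det +
      (-1) ^ (k : ℕ) * (Lt t (U 0 θ) * (Matrix.of (Function.update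
        (fun i : Fin (n + 1) => row t (U i.succ) θ) k (rrow (U k.succ) θ))).det) := by
    intro k
    set V : Fin (n + 1) → Fin (n + 1) → ℂ := fun j => row t (U (k.succ.succAbove j)) θ with hV
    have hrow : (fun i => pd (Fk κ t U k i) θ) = Function.update V 0
        (((κ : ℂ) + Rl (U k.succ θ)) • row t (U 0) θ + Lt t (U 0 θ) • rrow (U k.succ) θ) := by
      funext i
      unfold Fk
      by_cases hi : i = 0
      · subst hi
        rw [Function.update_self, Function.update_self,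
          pd_mul (((hU k.succ).clm Rl).const_add κ) ((hU 0).clm (Lt t)) hθ,
          pd_comp_clm (hU 0) (Lt t) hθ]
        congr 2
        have h1 := pd_comp_clm (hU k.succ) Rl hθ
        have h2 : pd (fun θ => (κ : ℂ) + Rl (U k.succ θ)) θ = pd (fun θ => Rl (U k.succ θ)) θ := by
          unfold pd
          funext j
          rw [fderiv_const_add]
        rw [h2, h1]
        rfl
      · rw [Function.update_of_ne hi, Function.update_of_ne hi]
        exact pd_comp_clm (hU _) (Lt t) hθ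
    have hV0 : V 0 = row t (U 0) θ := by
      rw [hV]
      simp only [Fin.succ_succAbove_zero]
    have hdet := det_update_succ (fun i => row t (U i) θ) (rrow (U k.succ) θ) k
    have hsq : ((-1 : ℂ)) ^ (k : ℕ) * (-1) ^ (k : ℕ) = 1 := by
      rw [← mul_pow]
      simp
    have e1 : (Matrix.of (Function.update V 0 (row t (U 0) θ))).det = (Matrix.of V).det := by
      rw [← hV0, Function.update_eq_self]
    have e2 : (Matrix.of (Function.update V 0 (rrow (U k.succ) θ))).det =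
        (-1) ^ (k : ℕ) * (Matrix.of (Function.update
        (fun i : Fin (n + 1) => row t (U i.succ) θ) k (rrow (U k.succ) θ))).det := by
      rw [hdet, ← mul_assoc, hsq, one_mul]
    have e3 : (Matrix.of (Function.update V 0
        (((κ : ℂ) + Rl (U k.succ θ)) • row t (U 0) θ + Lt t (U 0 θ) • rrow (U k.succ) θ))).det =
        ((κ : ℂ) + Rl (U k.succ θ)) * (Matrix.of (Function.update V 0 (row t (U 0) θ))).det +
        Lt t (U 0 θ) * (Matrix.of (Function.update V 0 (rrow (U k.succ) θ))).det := by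
      have a1 := (Matrix.detRowAlternating (R := ℂ) (n := Fin (n + 1))).map_update_add V 0
        (((κ : ℂ) + Rl (U k.succ θ)) • row t (U 0) θ) (Lt t (U 0 θ) • rrow (U k.succ) θ)
      have a2 := (Matrix.detRowAlternating (R := ℂ) (n := Fin (n + 1))).map_update_smul V 0
        ((κ : ℂ) + Rl (U k.succ θ)) (row t (U 0) θ)
      have a3 := (Matrix.detRowAlternating (R := ℂ) (n := Fin (n + 1))).map_update_smul V 0
        (Lt t (U 0 θ)) (rrow (U k.succ) θ)
      rw [a2, a3] at a1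
      exact a1
    unfold jac
    rw [hrow, e3, e1, e2]
    ring
  rw [Dd_eq, Fin.sum_univ_succ, Rd, h0]
  simp only [hk]
  simp only [Fin.val_zero, pow_zero, one_mul, Fin.zero_succAbove, Fin.val_succ]
  have h5 : ∀ k : Fin (n + 1), ((-1 : ℂ)) ^ ((k : ℕ) + 1) * (((κ : ℂ) + Rl (U k.succ θ)) *
        (Matrix.of fun j : Fin (n + 1) => row t (U (k.succ.succAbove j)) θ).det +
      (-1) ^ (k : ℕ) * (Lt t (U 0 θ) * (Matrix.of (Function.update
        (fun i : Fin (n + 1) => row t (U i.succ) θ) k (rrow (U k.succ) θ))).det)) =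
      (-1) ^ ((k : ℕ) + 1) * ((κ : ℂ) + Rl (U k.succ θ)) *
        (Matrix.of fun j : Fin (n + 1) => row t (U (k.succ.succAbove j)) θ).det -
      Lt t (U 0 θ) * (Matrix.of (Function.update
        (fun i : Fin (n + 1) => row t (U i.succ) θ) k (rrow (U k.succ) θ))).det := by
    intro k
    have hsq : ((-1 : ℂ)) ^ (k : ℕ) * (-1) ^ (k : ℕ) = 1 := by
      rw [← mul_pow]
      simp
    rw [pow_succ]
    linear_combination (-(Lt t (U 0 θ) * (Matrix.of (Function.update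
        (fun i : Fin (n + 1) => row t (U i.succ) θ) k (rrow (U k.succ) θ))).det)) * hsq
  simp only [h5]
  rw [Finset.sum_sub_distrib, Finset.mul_sum]
  ring

/-- restriction of a continuous function on the box to a slice -/
theorem slice {d : ℕ} {F : ℝ → (Fin d → ℝ) → ℂ}
    (hF : ContinuousOn (fun p : ℝ × (Fin d → ℝ) => F p.1 p.2)
      (Icc (0 : ℝ) 1 ×ˢ Icc (0 : Fin d → ℝ) 1)) {t : ℝ} (ht : t ∈ Icc (0 : ℝ) 1) :
    IntegrableOn (F t) (Icc 0 1) := by
  refine ContinuousOn.integrableOn_compact isCompact_Icc ?_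
  have hf : ContinuousOn (fun θ : Fin d → ℝ => ((t, θ) : ℝ × (Fin d → ℝ))) (Icc 0 1) :=
    (continuous_const.prodMk continuous_id).continuousOn
  exact ContinuousOn.comp (f := fun θ : Fin d → ℝ => ((t, θ) : ℝ × (Fin d → ℝ))) hF hf
    fun θ hθ => ⟨ht, hθ⟩

theorem integral_Dd (κ : ℝ) {t : ℝ} (ht : t ∈ Icc (0 : ℝ) 1) (hU : ∀ i, Sm (U i)) :
    ∫ θ in Icc (0 : Fin (n + 1) → ℝ) 1, Dd κ U t θ =
      (∫ θ in Icc (0 : Fin (n + 1) → ℝ) 1, Rd U t θ) +
      (κ * (∫ θ in Icc (0 : Fin (n + 1) → ℝ) 1, jac (F0 t U) θ) +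
      ∑ k : Fin (n + 1), (-1) ^ ((k : ℕ) + 1) *
        ∫ θ in Icc (0 : Fin (n + 1) → ℝ) 1, jac (Fk κ t U k) θ) := by
  rw [setIntegral_congr_fun measurableSet_Icc fun θ hθ => Dd_eq_Rd κ t hU hθ]
  have i0 : IntegrableOn (fun θ => (κ : ℂ) * jac (F0 t U) θ) (Icc 0 1) :=
    (continuousOn_const.mul (cont_jac (sm_F0 t hU))).integrableOn_compact isCompact_Icc
  have ik : ∀ k ∈ (Finset.univ : Finset (Fin (n + 1))), IntegrableOn
      (fun θ => ((-1 : ℂ)) ^ ((k : ℕ) + 1) * jac (Fk κ t U k) θ) (Icc 0 1) := fun k _ =>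
    (continuousOn_const.mul (cont_jac (sm_Fk κ t hU k))).integrableOn_compact isCompact_Icc
  have iS : IntegrableOn (fun θ => ∑ k : Fin (n + 1),
      ((-1 : ℂ)) ^ ((k : ℕ) + 1) * jac (Fk κ t U k) θ) (Icc 0 1) := integrable_finsetSum _ ik
  have iA : IntegrableOn (fun θ => (κ : ℂ) * jac (F0 t U) θ + ∑ k : Fin (n + 1),
      ((-1 : ℂ)) ^ ((k : ℕ) + 1) * jac (Fk κ t U k) θ) (Icc 0 1) := i0.add iS
  refine (integral_add (slice (cont_Rd hU) ht) iA).trans ?_
  congr 1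
  refine (integral_add i0 iS).trans ?_
  rw [integral_finsetSum _ ik, integral_const_mul]
  congr 1
  refine Finset.sum_congr rfl fun k _ => ?_
  rw [integral_const_mul]

end single

section cyc

/-- A closed real `d`-chain of smooth singular cubes in the space of the homomorphisms `A → ℂ`: maps
`e l` of the unit cube, twice continuously differentiable, with real coefficients `s l`, such
that the integral of the exact form `d G_1 ∧ ... ∧ d G_d` over the chain vanishes for all functions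
`G_i`, twice continuously differentiable on an open neighbourhood `V` of the chain. -/
structure Cyc (A : Type*) [CommRing A] (d : ℕ) where
  N : ℕ
  s : Fin N → ℝ
  e : Fin N → (Fin d → ℝ) → A →+* ℂ
  smooth : ∀ l h, ContDiff ℝ 2 fun θ => e l θ h
  closed : ∀ (m : ℕ) (a : Fin m → A) (V : Set (Fin m → ℂ)), IsOpen V →
    (∀ l, ∀ θ ∈ Icc (0 : Fin d → ℝ) 1, (fun k => e l θ (a k)) ∈ V) →
    ∀ G : Fin d → (Fin m → ℂ) → ℂ, (∀ i, ContDiffOn ℝ 2 (G i) V) →
      ∑ l, (s l : ℂ) * ∫ θ in Icc (0 : Fin d → ℝ) 1,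
        jac (fun i θ => G i fun k => e l θ (a k)) θ = 0

variable {A : Type*} [CommRing A]

/-- the values of the elements `a k` -/
def Cyc.pt {d m : ℕ} (Z : Cyc A d) (a : Fin m → A) (l : Fin Z.N) (θ : Fin d → ℝ) : Fin m → ℂ :=
  fun k => Z.e l θ (a k)

theorem Cyc.sm {d m : ℕ} (Z : Cyc A d) {a : Fin m → A} {V : Set (Fin m → ℂ)} (hV : IsOpen V)
    (hZ : ∀ l, ∀ θ ∈ Icc (0 : Fin d → ℝ) 1, Z.pt a l θ ∈ V) {G : (Fin m → ℂ) → ℂ}
    (hG : ContDiffOn ℝ 2 G V) (l : Fin Z.N) : Sm fun θ => G (Z.pt a l θ) := by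
  intro θ hθ
  have h1 : ContDiffAt ℝ 2 G (Z.pt a l θ) := hG.contDiffAt (hV.mem_nhds (hZ l θ hθ))
  have h2 : ContDiff ℝ 2 (Z.pt a l) := contDiff_pi.2 fun k => Z.smooth l (a k)
  exact h1.comp θ h2.contDiffAt

variable {n m : ℕ} (Z : Cyc A (n + 1)) {a : Fin m → A} {V : Set (Fin m → ℂ)}

theorem Cyc.sum_Dd (hV : IsOpen V)
    (hZ : ∀ l, ∀ θ ∈ Icc (0 : Fin (n + 1) → ℝ) 1, Z.pt a l θ ∈ V)
    {Φ : Fin (n + 2) → (Fin m → ℂ) → ℂ} (hΦ : ∀ i, ContDiffOn ℝ 2 (Φ i) V) (κ : ℝ) {t : ℝ}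
    (ht : t ∈ Icc (0 : ℝ) 1) :
    ∑ l, (Z.s l : ℂ) * ∫ θ in Icc (0 : Fin (n + 1) → ℝ) 1,
        Dd κ (fun i θ => Φ i (Z.pt a l θ)) t θ =
      ∑ l, (Z.s l : ℂ) * ∫ θ in Icc (0 : Fin (n + 1) → ℝ) 1,
        Rd (fun i θ => Φ i (Z.pt a l θ)) t θ := by
  have hsm : ∀ l i, Sm fun θ => Φ i (Z.pt a l θ) := fun l i => Z.sm hV hZ (hΦ i) l
  simp only [fun l => integral_Dd κ ht (hsm l), mul_add, Finset.sum_add_distrib, Finset.mul_sum]
  have h0 : ∑ l, (Z.s l : ℂ) * (κ * ∫ θ in Icc (0 : Fin (n + 1) → ℝ) 1,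
      jac (F0 t fun i θ => Φ i (Z.pt a l θ)) θ) = 0 := by
    have h := Z.closed m a V hV hZ (fun i z => Lt t (Φ i.succ z)) fun i =>
      (Lt t).contDiff.comp_contDiffOn (hΦ i.succ)
    have e : ∀ l, (Z.s l : ℂ) * (κ * ∫ θ in Icc (0 : Fin (n + 1) → ℝ) 1,
      jac (F0 t fun i θ => Φ i (Z.pt a l θ)) θ) = κ * ((Z.s l : ℂ) *
        ∫ θ in Icc (0 : Fin (n + 1) → ℝ) 1,
          jac (fun (i : Fin (n + 1)) θ => Lt t (Φ i.succ (Z.pt a l θ))) θ) := by
      intro l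
      rw [mul_left_comm]
      rfl
    rw [Finset.sum_congr rfl fun l _ => e l, ← Finset.mul_sum]
    refine mul_eq_zero_of_right _ ?_
    exact h
  have hk : ∀ k : Fin (n + 1), ∑ l, (Z.s l : ℂ) * ((-1) ^ ((k : ℕ) + 1) *
      ∫ θ in Icc (0 : Fin (n + 1) → ℝ) 1,
        jac (Fk κ t (fun i θ => Φ i (Z.pt a l θ)) k) θ) = 0 := by
    intro k
    let G : Fin (n + 1) → (Fin m → ℂ) → ℂ :=
      Function.update (fun j z => Lt t (Φ (k.succ.succAbove j) z)) 0
        fun z => ((κ : ℂ) + Rl (Φ k.succ z)) * Lt t (Φ 0 z)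
    have hG : ∀ i, ContDiffOn ℝ 2 (G i) V := by
      intro i
      by_cases hi : i = 0
      · subst hi
        simp only [G, Function.update_self]
        exact (contDiffOn_const.add (Rl.contDiff.comp_contDiffOn (hΦ k.succ))).mul
          ((Lt t).contDiff.comp_contDiffOn (hΦ 0))
      · simp only [G, Function.update_of_ne hi]
        exact (Lt t).contDiff.comp_contDiffOn (hΦ _)
    have h := Z.closed m a V hV hZ G hG
    have e : ∀ l, (Z.s l : ℂ) * ((-1) ^ ((k : ℕ) + 1) *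
      ∫ θ in Icc (0 : Fin (n + 1) → ℝ) 1, jac (Fk κ t (fun i θ => Φ i (Z.pt a l θ)) k) θ) =
      (-1) ^ ((k : ℕ) + 1) * ((Z.s l : ℂ) *
        ∫ θ in Icc (0 : Fin (n + 1) → ℝ) 1, jac (fun i θ => G i (Z.pt a l θ)) θ) := by
      intro l
      rw [mul_left_comm]
      congr 4
      funext θ
      congr 1
      funext i θ
      unfold Fk
      by_cases hi : i = 0
      · subst hi
        simp only [G, Function.update_self]
      · simp only [G, Function.update_of_ne hi]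
    rw [Finset.sum_congr rfl fun l _ => e l, ← Finset.mul_sum]
    refine mul_eq_zero_of_right _ ?_
    exact h
  rw [h0, Finset.sum_comm, Finset.sum_congr rfl fun k _ => hk k]
  simp

/-- The regulator of a symbol of functions with logarithms. -/
theorem Cyc.sum_pairing (hV : IsOpen V)
    (hZ : ∀ l, ∀ θ ∈ Icc (0 : Fin (n + 1) → ℝ) 1, Z.pt a l θ ∈ V)
    {Φ : Fin (n + 2) → (Fin m → ℂ) → ℂ} (hΦ : ∀ i, ContDiffOn ℝ 2 (Φ i) V) {C : ℂ} (hC : C ≠ 0)
    {g : Fin Z.N → Fin (n + 2) → (Fin (n + 1) → ℝ) → ℂ}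
    (hg : ∀ l i, ∀ θ ∈ Icc (0 : Fin (n + 1) → ℝ) 1, g l i =ᶠ[𝓝 θ] fun θ =>
      C * Complex.exp (Φ i (Z.pt a l θ))) :
    ∑ l, Z.s l * pairing (g l) = ((-Complex.I) ^ (n + 1) * ∑ l, (Z.s l : ℂ) *
      ∫ θ in Icc (0 : Fin (n + 1) → ℝ) 1, Φ 0 (Z.pt a l θ) *
        jac (fun i θ => Φ i.succ (Z.pt a l θ)) θ).re := by
  have hsm : ∀ l i, Sm fun θ => Φ i (Z.pt a l θ) := fun l i => Z.sm hV hZ (hΦ i) l
  set U : Fin Z.N → Fin (n + 2) → (Fin (n + 1) → ℝ) → ℂ := fun l i θ => Φ i (Z.pt a l θ) with hU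
  set κ := Real.log ‖C‖
  have h1 : ∑ l, Z.s l * pairing (g l) = ((-Complex.I) ^ (n + 1) * ∑ l, (Z.s l : ℂ) *
      ∫ t in Icc (0 : ℝ) 1, ∫ θ in Icc (0 : Fin (n + 1) → ℝ) 1, Dd κ (U l) t θ).re := by
    rw [Finset.mul_sum, Complex.re_sum]
    refine Finset.sum_congr rfl fun l _ => ?_
    rw [pairing_eq hC (hsm l) (hg l), mul_left_comm, Complex.re_ofReal_mul]
  have hint : ∀ (F : ℝ → (Fin (n + 1) → ℝ) → ℂ),
      ContinuousOn (fun p : ℝ × (Fin (n + 1) → ℝ) => F p.1 p.2)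
        (Icc (0 : ℝ) 1 ×ˢ Icc (0 : Fin (n + 1) → ℝ) 1) → ∀ c : ℂ,
      Integrable (fun t => c * ∫ θ in Icc (0 : Fin (n + 1) → ℝ) 1, F t θ)
        ((volume : Measure ℝ).restrict (Icc 0 1)) := fun F hF c =>
    (integrableOn_box hF).integral_prod_left.const_mul c
  have h2 : ∑ l, (Z.s l : ℂ) *
      ∫ t in Icc (0 : ℝ) 1, ∫ θ in Icc (0 : Fin (n + 1) → ℝ) 1, Dd κ (U l) t θ =
      ∑ l, (Z.s l : ℂ) *
      ∫ t in Icc (0 : ℝ) 1, ∫ θ in Icc (0 : Fin (n + 1) → ℝ) 1, Rd (U l) t θ := by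
    simp only [← integral_const_mul]
    rw [← integral_finsetSum _ fun l _ => ?_, ← integral_finsetSum _ fun l _ => ?_]
    · refine setIntegral_congr_fun measurableSet_Icc fun t ht => ?_
      simp only [integral_const_mul]
      exact Z.sum_Dd hV hZ hΦ κ ht
    · simp only [integral_const_mul]
      exact hint _ (cont_Rd (hsm l)) _
    · simp only [integral_const_mul]
      exact hint _ (cont_Dd κ (hsm l)) _
  have h3 : ∀ l, ∫ t in Icc (0 : ℝ) 1, ∫ θ in Icc (0 : Fin (n + 1) → ℝ) 1, Rd (U l) t θ =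
      (∫ θ in Icc (0 : Fin (n + 1) → ℝ) 1, U l 0 θ * jac (fun i => U l i.succ) θ) -
      ∫ θ in Icc (0 : Fin (n + 1) → ℝ) 1, Ed (U l) 0 θ := by
    intro l
    rw [integral_box_swap (cont_Rd (hsm l)),
      setIntegral_congr_fun measurableSet_Icc fun θ hθ => integral_Rd (hsm l) hθ,
      integral_sub (slice (cont_Ed (hsm l)) ⟨zero_le_one, le_refl 1⟩)
        (slice (cont_Ed (hsm l)) ⟨le_refl 0, zero_le_one⟩)]
    simp only [Ed_one]
    rfl
  have h4 : ∀ l, ((-Complex.I) ^ (n + 1) * ((Z.s l : ℂ) *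
      ∫ θ in Icc (0 : Fin (n + 1) → ℝ) 1, Ed (U l) 0 θ)).re = 0 := by
    intro l
    choose x hx using fun θ => Ed_zero (U l) θ
    simp only [hx]
    have h8 : ∫ θ in Icc (0 : Fin (n + 1) → ℝ) 1, ((x θ : ℝ) : ℂ) =
        ((∫ θ in Icc (0 : Fin (n + 1) → ℝ) 1, x θ : ℝ) : ℂ) := integral_ofReal
    rw [integral_const_mul, h8]
    have h5 : (-Complex.I) ^ (n + 1) * Complex.I ^ (n + 1 + 1) = Complex.I := by
      rw [pow_succ Complex.I, ← mul_assoc, ← mul_pow]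
      simp
    have h6 : ∀ y z : ℝ, (-Complex.I) ^ (n + 1) * ((y : ℂ) * (Complex.I ^ (n + 1 + 1) * (z : ℂ))) =
        ((y * z : ℝ) : ℂ) * Complex.I := by
      intro y z
      have : (-Complex.I) ^ (n + 1) * ((y : ℂ) * (Complex.I ^ (n + 1 + 1) * (z : ℂ))) =
        ((y : ℂ) * z) * ((-Complex.I) ^ (n + 1) * Complex.I ^ (n + 1 + 1)) := by ring
      rw [this, h5]
      push_cast
      ring
    rw [h6]
    simp
  rw [h1, h2]
  simp only [h3, mul_sub, Finset.sum_sub_distrib, Complex.sub_re]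
  have h7 : ((-Complex.I) ^ (n + 1) * ∑ l, (Z.s l : ℂ) *
      ∫ θ in Icc (0 : Fin (n + 1) → ℝ) 1, Ed (U l) 0 θ).re = 0 := by
    rw [Finset.mul_sum, Complex.re_sum]
    exact Finset.sum_eq_zero fun l _ => h4 l
  rw [h7, sub_zero]

end cyc

end Pool.Agent.U374.Dn
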