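import Pool.Agent.TH826.MK.Exact
set_option autoImplicit false

/-!
The regulator integral of functions with logarithms over one cube.
-/

namespace Pool.Agent.U374.Dn

open MeasureTheory Set

open scoped Topology

open Pool.Agent.TH826.MK (tl tl_apply lw grow grow_zero grow_succ integrand pairing detC detC_apply
  restrict_Icc)

variable {d : ℕ}

section fubini

theorem integrableOn_box {F : ℝ → (Fin d → ℝ) → ℂ}
    (hF : ContinuousOn (fun p : ℝ × (Fin d → ℝ) => F p.1 p.2)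
      (Icc (0 : ℝ) 1 ×ˢ Icc (0 : Fin d → ℝ) 1)) :
    Integrable (fun p : ℝ × (Fin d → ℝ) => F p.1 p.2)
      (((volume : Measure ℝ).restrict (Icc 0 1)).prod
        ((volume : Measure (Fin d → ℝ)).restrict (Icc 0 1))) := by
  rw [Measure.prod_restrict]
  exact hF.integrableOn_compact (isCompact_Icc.prod isCompact_Icc)

theorem integral_box {F : ℝ → (Fin d → ℝ) → ℂ}
    (hF : ContinuousOn (fun p : ℝ × (Fin d → ℝ) => F p.1 p.2)
      (Icc (0 : ℝ) 1 ×ˢ Icc (0 : Fin d → ℝ) 1)) :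
    ∫ y in Icc (0 : Fin (d + 1) → ℝ) 1, F (y 0) (tl d y) =
      ∫ t in Icc (0 : ℝ) 1, ∫ θ in Icc (0 : Fin d → ℝ) 1, F t θ := by
  rw [restrict_Icc (d + 1)]
  have h := measurePreserving_piFinSuccAbove
    (fun _ : Fin (d + 1) => (volume : Measure ℝ).restrict (Icc 0 1)) 0
  have h2 := h.integral_comp' (fun p : ℝ × (Fin d → ℝ) => F p.1 p.2)
  have e : ∀ y : Fin (d + 1) → ℝ, (fun p : ℝ × (Fin d → ℝ) => F p.1 p.2)
      (MeasurableEquiv.piFinSuccAbove (fun _ => ℝ) 0 y) = F (y 0) (tl d y) := by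
    intro y
    rfl
  simp only [e] at h2
  rw [h2, ← restrict_Icc d, integral_prod _ (integrableOn_box hF)]

theorem integral_box_swap {F : ℝ → (Fin d → ℝ) → ℂ}
    (hF : ContinuousOn (fun p : ℝ × (Fin d → ℝ) => F p.1 p.2)
      (Icc (0 : ℝ) 1 ×ˢ Icc (0 : Fin d → ℝ) 1)) :
    ∫ t in Icc (0 : ℝ) 1, ∫ θ in Icc (0 : Fin d → ℝ) 1, F t θ =
      ∫ θ in Icc (0 : Fin d → ℝ) 1, ∫ t in Icc (0 : ℝ) 1, F t θ :=
  integral_integral_swap (integrableOn_box hF)

end fubini

section sign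

theorem det_update_succ {n : ℕ} (V : Fin (n + 2) → Fin (n + 1) → ℂ) (U : Fin (n + 1) → ℂ)
    (k : Fin (n + 1)) :
    (Matrix.of (Function.update (fun i : Fin (n + 1) => V i.succ) k U)).det =
      (-1) ^ (k : ℕ) *
        (Matrix.of (Function.update (fun i : Fin (n + 1) => V (k.succ.succAbove i)) 0 U)).det := by
  have h := Matrix.det_permute (Fin.cycleRange k)
    (Matrix.of (Function.update (fun i : Fin (n + 1) => V (k.succ.succAbove i)) 0 U))
  have e : (Matrix.of (Function.update (fun i : Fin (n + 1) => V (k.succ.succAbove i)) 0 U)).submatrix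
      (Fin.cycleRange k) id = Matrix.of (Function.update (fun i : Fin (n + 1) => V i.succ) k U) := by
    ext i j
    simp only [Matrix.submatrix_apply, Matrix.of_apply, id]
    rcases lt_trichotomy i k with hik | rfl | hik
    · rw [Fin.cycleRange_of_lt hik, Function.update_of_ne hik.ne]
      have h1 : (i + 1 : Fin (n + 1)) ≠ 0 := by
        intro h0
        have h2 := Fin.val_add_one_of_lt (lt_of_lt_of_le hik (Fin.le_last k))
        rw [h0] at h2
        simp at h2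
      rw [Function.update_of_ne h1]
      congr 1
      apply Fin.ext
      have h2 := Fin.val_add_one_of_lt (lt_of_lt_of_le hik (Fin.le_last k))
      rw [Fin.succAbove_of_castSucc_lt]
      · rw [Fin.val_castSucc, h2, Fin.val_succ]
      · rw [Fin.lt_def, Fin.val_castSucc, h2, Fin.val_succ]
        have := Fin.lt_def.1 hik
        omega
    · rw [Fin.cycleRange_self, Function.update_self, Function.update_self]
    · rw [Fin.cycleRange_of_gt hik, Function.update_of_ne hik.ne']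
      have h1 : i ≠ 0 := (lt_of_le_of_lt (Fin.zero_le k) hik).ne'
      rw [Function.update_of_ne h1]
      congr 1
      rw [Fin.succAbove_of_le_castSucc]
      rw [Fin.le_def, Fin.val_castSucc, Fin.val_succ]
      have := Fin.lt_def.1 hik
      omega
  rw [e, Fin.sign_cycleRange] at h
  rw [h]
  push_cast
  rfl

end sign

/-- the real linear map `z ↦ t Re z + i Im z` -/
noncomputable def Lt (t : ℝ) : ℂ →L[ℝ] ℂ :=
  t • Complex.ofRealCLM.comp Complex.reCLM + Complex.I • Complex.ofRealCLM.comp Complex.imCLM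

theorem Lt_apply (t : ℝ) (z : ℂ) : Lt t z = ((t * z.re : ℝ) : ℂ) + Complex.I * (z.im : ℝ) := by
  simp [Lt]

theorem Lt_one (z : ℂ) : Lt 1 z = z := by
  rw [Lt_apply, one_mul, mul_comm Complex.I]
  exact Complex.re_add_im z

theorem Lt_zero (z : ℂ) : Lt 0 z = Complex.I * (z.im : ℝ) := by
  rw [Lt_apply]
  simp

/-- the real linear map `z ↦ Re z` -/
noncomputable def Rl : ℂ →L[ℝ] ℂ := Complex.ofRealCLM.comp Complex.reCLM

theorem Rl_apply (z : ℂ) : Rl z = (z.re : ℂ) := rfl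

theorem hasDerivAt_Lt (z : ℂ) (t : ℝ) : HasDerivAt (fun t => Lt t z) (Rl z) t := by
  have h : HasDerivAt (fun t : ℝ => ((t : ℝ) : ℂ)) 1 t := (hasDerivAt_id t).ofReal_comp
  have h2 := (h.mul_const (z.re : ℂ)).add_const (Complex.I * (z.im : ℝ))
  have e : (fun t => Lt t z) = fun t : ℝ => (t : ℂ) * (z.re : ℂ) + Complex.I * (z.im : ℝ) := by
    funext t
    rw [Lt_apply]
    push_cast
    rfl
  rw [e, Rl_apply]
  simpa using h2

theorem continuous_Lt : Continuous fun p : ℝ × ℂ => Lt p.1 p.2 := by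
  have e : (fun p : ℝ × ℂ => Lt p.1 p.2) = fun p : ℝ × ℂ =>
      ((p.1 * p.2.re : ℝ) : ℂ) + Complex.I * (p.2.im : ℝ) := by
    funext p
    rw [Lt_apply]
  rw [e]
  exact (Complex.continuous_ofReal.comp
    (continuous_fst.mul (Complex.continuous_re.comp continuous_snd))).add
    (continuous_const.mul (Complex.continuous_ofReal.comp
      (Complex.continuous_im.comp continuous_snd)))

theorem cont_Lt {X : Type*} [TopologicalSpace X] {S : Set X} {a : X → ℝ} {b : X → ℂ}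
    (ha : ContinuousOn a S) (hb : ContinuousOn b S) : ContinuousOn (fun x => Lt (a x) (b x)) S :=
  continuous_Lt.comp_continuousOn (f := fun x => (a x, b x)) (ha.prodMk hb)

theorem cont_Rl {X : Type*} [TopologicalSpace X] {S : Set X} {b : X → ℂ}
    (hb : ContinuousOn b S) : ContinuousOn (fun x => Rl (b x)) S :=
  Rl.continuous.comp_continuousOn hb

section cube

/-- the row of the partial derivatives -/
noncomputable def pd (u : (Fin d → ℝ) → ℂ) (θ : Fin d → ℝ) : Fin d → ℂ :=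
  fun j => fderiv ℝ u θ (Pi.single j 1)

/-- the Jacobian determinant of `d` complex functions of `d` real variables -/
noncomputable def jac (F : Fin d → (Fin d → ℝ) → ℂ) (θ : Fin d → ℝ) : ℂ :=
  (Matrix.of fun i => pd (F i) θ).det

/-- twice continuously differentiable on a neighbourhood of the unit cube -/
def Sm (u : (Fin d → ℝ) → ℂ) : Prop := ∀ θ ∈ Icc (0 : Fin d → ℝ) 1, ContDiffAt ℝ 2 u θ

variable {u : (Fin d → ℝ) → ℂ} {U : Fin (d + 1) → (Fin d → ℝ) → ℂ}

theorem Sm.cont (h : Sm u) : ContinuousOn u (Icc 0 1) :=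
  fun θ hθ => (h θ hθ).continuousAt.continuousWithinAt

theorem Sm.diff (h : Sm u) {θ : Fin d → ℝ} (hθ : θ ∈ Icc (0 : Fin d → ℝ) 1) :
    DifferentiableAt ℝ u θ := (h θ hθ).differentiableAt (by norm_num)

theorem Sm.cont_pd (h : Sm u) : ContinuousOn (pd u) (Icc 0 1) := by
  refine continuousOn_pi.2 fun j θ hθ => ?_
  have h1 : ContDiffAt ℝ 1 (fderiv ℝ u) θ := (h θ hθ).fderiv_right (by norm_num)
  exact ((h1.continuousAt.clm_apply continuousAt_const)).continuousWithinAt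

theorem pd_comp_clm (h : Sm u) (L : ℂ →L[ℝ] ℂ) {θ : Fin d → ℝ}
    (hθ : θ ∈ Icc (0 : Fin d → ℝ) 1) : pd (fun θ => L (u θ)) θ = fun j => L (pd u θ j) := by
  funext j
  unfold pd
  have h1 := (L.hasFDerivAt.comp θ (h.diff hθ).hasFDerivAt).fderiv
  have e : (fun θ => L (u θ)) = L ∘ u := rfl
  rw [e, h1]
  rfl

theorem pd_mul {v : (Fin d → ℝ) → ℂ} (hu : Sm u) (hv : Sm v) {θ : Fin d → ℝ}
    (hθ : θ ∈ Icc (0 : Fin d → ℝ) 1) :
    pd (fun θ => u θ * v θ) θ = u θ • pd v θ + v θ • pd u θ := by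
  funext j
  unfold pd
  rw [fderiv_fun_mul (hu.diff hθ) (hv.diff hθ)]
  simp

/-- the rows `∇ (t Re u + i Im u)` -/
noncomputable def row (t : ℝ) (u : (Fin d → ℝ) → ℂ) (θ : Fin d → ℝ) : Fin d → ℂ :=
  fun j => Lt t (pd u θ j)

/-- the rows `∇ Re u` -/
noncomputable def rrow (u : (Fin d → ℝ) → ℂ) (θ : Fin d → ℝ) : Fin d → ℂ :=
  fun j => Rl (pd u θ j)

theorem Sm.cont_row (h : Sm u) :
    ContinuousOn (fun p : ℝ × (Fin d → ℝ) => row p.1 u p.2)
      (Icc (0 : ℝ) 1 ×ˢ Icc (0 : Fin d → ℝ) 1) := by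
  refine continuousOn_pi.2 fun j => ?_
  have h1 := (continuousOn_pi.1 h.cont_pd j).comp (continuousOn_snd
    (s := Icc (0 : ℝ) 1 ×ˢ Icc (0 : Fin d → ℝ) 1)) (fun p hp => hp.2)
  exact cont_Lt continuousOn_fst h1

theorem Sm.cont_rrow (h : Sm u) :
    ContinuousOn (fun p : ℝ × (Fin d → ℝ) => rrow u p.2)
      (Icc (0 : ℝ) 1 ×ˢ Icc (0 : Fin d → ℝ) 1) := by
  refine continuousOn_pi.2 fun j => ?_
  have h1 := (continuousOn_pi.1 h.cont_pd j).comp (continuousOn_snd
    (s := Icc (0 : ℝ) 1 ×ˢ Icc (0 : Fin d → ℝ) 1)) (fun p hp => hp.2)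
  exact cont_Rl h1

theorem Sm.cont2 (h : Sm u) :
    ContinuousOn (fun p : ℝ × (Fin d → ℝ) => u p.2)
      (Icc (0 : ℝ) 1 ×ˢ Icc (0 : Fin d → ℝ) 1) :=
  h.cont.comp continuousOn_snd fun p hp => hp.2

theorem cont_det {n : ℕ} {X : Type*} [TopologicalSpace X] {S : Set X} {M : X → Fin n → Fin n → ℂ}
    (h : ∀ i, ContinuousOn (fun x => M x i) S) : ContinuousOn (fun x => (Matrix.of (M x)).det) S :=
  (detC n).cont.comp_continuousOn (continuousOn_pi.2 h)

/-- the integrand of the regulator -/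
noncomputable def Dd (κ : ℝ) (U : Fin (d + 1) → (Fin d → ℝ) → ℂ) (t : ℝ) (θ : Fin d → ℝ) : ℂ :=
  (Matrix.of fun i => (Fin.cons ((κ : ℂ) + Rl (U i θ)) (row t (U i) θ) : Fin (d + 1) → ℂ)).det

/-- the function `v_0 det (∇ v_1, ..., ∇ v_d)`, `v = t Re u + i Im u` -/
noncomputable def Ed (U : Fin (d + 1) → (Fin d → ℝ) → ℂ) (t : ℝ) (θ : Fin d → ℝ) : ℂ :=
  Lt t (U 0 θ) * (Matrix.of fun i : Fin d => row t (U i.succ) θ).det

/-- its derivative with respect to `t` -/
noncomputable def Rd (U : Fin (d + 1) → (Fin d → ℝ) → ℂ) (t : ℝ) (θ : Fin d → ℝ) : ℂ :=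
  Rl (U 0 θ) * (Matrix.of fun i : Fin d => row t (U i.succ) θ).det +
    Lt t (U 0 θ) * ∑ k : Fin d, (Matrix.of (Function.update
      (fun i : Fin d => row t (U i.succ) θ) k (rrow (U k.succ) θ))).det

theorem cont_Dd (κ : ℝ) (h : ∀ i, Sm (U i)) :
    ContinuousOn (fun p : ℝ × (Fin d → ℝ) => Dd κ U p.1 p.2)
      (Icc (0 : ℝ) 1 ×ˢ Icc (0 : Fin d → ℝ) 1) := by
  refine cont_det fun i => ?_
  refine continuousOn_pi.2 fun j => ?_
  refine Fin.cases ?_ (fun j => ?_) j
  · simp only [Fin.cons_zero]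
    exact continuousOn_const.add (cont_Rl (h i).cont2)
  · simp only [Fin.cons_succ]
    exact continuousOn_pi.1 (h i).cont_row j

theorem cont_Ed (h : ∀ i, Sm (U i)) :
    ContinuousOn (fun p : ℝ × (Fin d → ℝ) => Ed U p.1 p.2)
      (Icc (0 : ℝ) 1 ×ˢ Icc (0 : Fin d → ℝ) 1) := by
  refine ContinuousOn.mul (cont_Lt continuousOn_fst (h 0).cont2) ?_
  exact cont_det fun i => (h i.succ).cont_row

theorem cont_Rd (h : ∀ i, Sm (U i)) :
    ContinuousOn (fun p : ℝ × (Fin d → ℝ) => Rd U p.1 p.2)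
      (Icc (0 : ℝ) 1 ×ˢ Icc (0 : Fin d → ℝ) 1) := by
  refine ContinuousOn.add ?_ ?_
  · refine ContinuousOn.mul (cont_Rl (h 0).cont2) ?_
    exact cont_det fun i => (h i.succ).cont_row
  · refine ContinuousOn.mul (cont_Lt continuousOn_fst (h 0).cont2) ?_
    refine continuousOn_finsetSum _ fun k _ => ?_
    refine cont_det fun i => ?_
    by_cases hi : i = k
    · subst hi
      simp only [Function.update_self]
      exact (h i.succ).cont_rrow
    · simp only [Function.update_of_ne hi]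
      exact (h i.succ).cont_row

theorem hasDerivAt_Ed (U : Fin (d + 1) → (Fin d → ℝ) → ℂ) (t : ℝ) (θ : Fin d → ℝ) :
    HasDerivAt (fun t => Ed U t θ) (Rd U t θ) t := by
  have hrow : ∀ i, HasFDerivAt (fun t => row t (U i) θ)
      (ContinuousLinearMap.toSpanSingleton ℝ (rrow (U i) θ)) t := by
    intro i
    have : HasDerivAt (fun t => row t (U i) θ) (rrow (U i) θ) t :=
      hasDerivAt_pi.2 fun j => hasDerivAt_Lt _ t
    exact this.hasFDerivAt
  have hdet := (HasFDerivAt.multilinear_comp (detC d) fun i : Fin d => hrow i.succ).hasDerivAt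
  have h := (hasDerivAt_Lt (U 0 θ) t).mul hdet
  refine h.congr_deriv ?_
  unfold Rd
  congr 2
  rw [sum_apply]
  refine Finset.sum_congr rfl fun k _ => ?_
  rw [ContinuousLinearMap.comp_apply, ContinuousLinearMap.toSpanSingleton_apply, one_smul]
  rfl

theorem integral_Rd (h : ∀ i, Sm (U i)) {θ : Fin d → ℝ} (hθ : θ ∈ Icc (0 : Fin d → ℝ) 1) :
    ∫ t in Icc (0 : ℝ) 1, Rd U t θ = Ed U 1 θ - Ed U 0 θ := by
  rw [integral_Icc_eq_integral_Ioc, ← intervalIntegral.integral_of_le zero_le_one]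
  refine intervalIntegral.integral_eq_sub_of_hasDerivAt (fun t _ => hasDerivAt_Ed U t θ) ?_
  refine ContinuousOn.intervalIntegrable ?_
  rw [uIcc_of_le zero_le_one]
  have hf : ContinuousOn (fun t : ℝ => ((t, θ) : ℝ × (Fin d → ℝ))) (Icc 0 1) :=
    (continuous_id.prodMk continuous_const).continuousOn
  exact ContinuousOn.comp (f := fun t : ℝ => ((t, θ) : ℝ × (Fin d → ℝ))) (cont_Rd h) hf
    fun t ht => ⟨ht, hθ⟩

theorem Ed_one (U : Fin (d + 1) → (Fin d → ℝ) → ℂ) (θ : Fin d → ℝ) :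
    Ed U 1 θ = U 0 θ * jac (fun i => U i.succ) θ := by
  unfold Ed jac
  rw [Lt_one]
  congr 2
  ext i j
  show Lt 1 _ = _
  rw [Lt_one]
  rfl

theorem Ed_zero (U : Fin (d + 1) → (Fin d → ℝ) → ℂ) (θ : Fin d → ℝ) :
    ∃ x : ℝ, Ed U 0 θ = Complex.I ^ (d + 1) * x := by
  refine ⟨(U 0 θ).im * (Matrix.of fun i j : Fin d => (pd (U i.succ) θ j).im).det, ?_⟩
  unfold Ed
  have h2 : (Matrix.of fun i : Fin d => row 0 (U i.succ) θ) =
      Matrix.of fun i j => Complex.I *
        ((Matrix.of fun i j : Fin d => (pd (U i.succ) θ j).im).map (fun x : ℝ => (x : ℂ))) i j := by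
    ext i j
    show Lt 0 _ = _
    rw [Lt_zero]
    rfl
  have h4 : ((Matrix.of fun i j : Fin d => (pd (U i.succ) θ j).im).map (fun x : ℝ => (x : ℂ))).det =
      (((Matrix.of fun i j : Fin d => (pd (U i.succ) θ j).im).det : ℝ) : ℂ) :=
    (RingHom.map_det Complex.ofRealHom _).symm
  have h5 := Matrix.det_mul_column (fun _ : Fin d => Complex.I)
    ((Matrix.of fun i j : Fin d => (pd (U i.succ) θ j).im).map (fun x : ℝ => (x : ℂ)))
  rw [h2, h5, h4, Lt_zero, Finset.prod_const, Finset.card_univ, Fintype.card_fin]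
  push_cast
  ring

/-- expansion along the first column -/
theorem Dd_eq (κ : ℝ) (U : Fin (d + 1) → (Fin d → ℝ) → ℂ) (t : ℝ) (θ : Fin d → ℝ) :
    Dd κ U t θ = ∑ i : Fin (d + 1), (-1) ^ (i : ℕ) * ((κ : ℂ) + Rl (U i θ)) *
      (Matrix.of fun k : Fin d => row t (U (i.succAbove k)) θ).det := by
  unfold Dd
  rw [Matrix.det_succ_column_zero]
  refine Finset.sum_congr rfl fun i _ => ?_
  rfl

/-- the integrand for functions with logarithms -/
theorem grow_eq {g u : (Fin d → ℝ) → ℂ} {C : ℂ} (hC : C ≠ 0) (hu : Sm u) {y : Fin (d + 1) → ℝ}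
    (hy : y ∈ Icc (0 : Fin (d + 1) → ℝ) 1)
    (hg : g =ᶠ[𝓝 (tl d y)] fun θ => C * Complex.exp (u θ)) :
    grow g y = Fin.cons (((Real.log ‖C‖ : ℝ) : ℂ) + Rl (u (tl d y))) (row (y 0) u (tl d y)) := by
  have hθ : tl d y ∈ Icc (0 : Fin d → ℝ) 1 := ⟨fun i => hy.1 i.succ, fun i => hy.2 i.succ⟩
  have h1 : HasFDerivAt g ((C * Complex.exp (u (tl d y))) • fderiv ℝ u (tl d y)) (tl d y) := by
    have h2 := ((hu.diff hθ).hasFDerivAt.cexp).const_mul C
    refine (h2.congr_of_eventuallyEq hg).congr_fderiv ?_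
    rw [smul_smul]
  funext j
  refine Fin.cases ?_ (fun j => ?_) j
  · rw [grow_zero, hg.eq_of_nhds, Fin.cons_zero, norm_mul, Complex.norm_exp,
      Real.log_mul (norm_ne_zero_iff.2 hC) (Real.exp_ne_zero _), Real.log_exp, Rl_apply]
    push_cast
    rfl
  · rw [grow_succ, Fin.cons_succ]
    have h3 : lw g j (tl d y) = pd u (tl d y) j := by
      unfold lw pd
      rw [h1.fderiv, hg.eq_of_nhds]
      exact mul_div_cancel_left₀ _ (mul_ne_zero hC (Complex.exp_ne_zero _))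
    rw [h3]
    show _ = Lt (y 0) _
    rw [Lt_apply]

theorem pairing_eq {g : Fin (d + 1) → (Fin d → ℝ) → ℂ} {C : ℂ} (hC : C ≠ 0)
    (hU : ∀ i, Sm (U i))
    (hg : ∀ i, ∀ θ ∈ Icc (0 : Fin d → ℝ) 1, g i =ᶠ[𝓝 θ] fun θ => C * Complex.exp (U i θ)) :
    pairing g = ((-Complex.I) ^ d *
      ∫ t in Icc (0 : ℝ) 1, ∫ θ in Icc (0 : Fin d → ℝ) 1, Dd (Real.log ‖C‖) U t θ).re := by
  unfold pairing
  have e : ∀ y ∈ Icc (0 : Fin (d + 1) → ℝ) 1, integrand g y =
      Complex.reCLM ((-Complex.I) ^ d * Dd (Real.log ‖C‖) U (y 0) (tl d y)) := by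
    intro y hy
    have hθ : tl d y ∈ Icc (0 : Fin d → ℝ) 1 := ⟨fun i => hy.1 i.succ, fun i => hy.2 i.succ⟩
    unfold integrand Dd
    rw [Complex.reCLM_apply]
    congr 3
    ext i j
    show grow (g i) y j = _
    rw [grow_eq hC (hU i) hy (hg i _ hθ)]
    rfl
  rw [setIntegral_congr_fun measurableSet_Icc e, ContinuousLinearMap.integral_comp_comm,
    integral_const_mul, integral_box (cont_Dd _ hU)]
  · rfl
  · refine ContinuousOn.integrableOn_compact isCompact_Icc (continuousOn_const.mul ?_)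
    refine (cont_Dd _ hU).comp (f := fun y : Fin (d + 1) → ℝ => (y 0, tl d y)) ?_ ?_
    · exact ((continuous_apply 0).prodMk (tl d).continuous).continuousOn
    · intro y hy
      exact ⟨⟨hy.1 0, hy.2 0⟩, ⟨fun i => hy.1 i.succ, fun i => hy.2 i.succ⟩⟩

end cube

end Pool.Agent.U374.Dn
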