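import Pool.Agent.U374.Dn.Chain
import Pool.Agent.TH826.MK.Bound
set_option autoImplicit false

/-!
Limits of the integrals of `φ(F_0) dφ(F_1) ∧ ... ∧ dφ(F_d)`.
-/

namespace Pool.Agent.U374.Dn

open MeasureTheory Set Filter

open scoped Topology

variable {d : ℕ}

theorem pd_comp {u : (Fin d → ℝ) → ℂ} {φ : ℂ → ℂ} {φ' : ℂ} {θ : Fin d → ℝ}
    (hu : DifferentiableAt ℝ u θ) (hφ : HasDerivAt φ φ' (u θ)) :
    pd (fun θ => φ (u θ)) θ = φ' • pd u θ := by
  have h := (hφ.comp_hasFDerivAt θ hu.hasFDerivAt).fderiv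
  funext j
  unfold pd
  have e : (fun θ => φ (u θ)) = φ ∘ u := rfl
  rw [e, h]
  rfl

theorem tendsto_int {ι : Type*} {f : Filter ι} [f.IsCountablyGenerated]
    {a : ι → (Fin d → ℝ) → ℂ} {M : ι → (Fin d → ℝ) → Fin d → Fin d → ℂ}
    {a' : (Fin d → ℝ) → ℂ} {M' : (Fin d → ℝ) → Fin d → Fin d → ℂ} {K : (Fin d → ℝ) → ℝ}
    (hK : ContinuousOn K (Icc 0 1))
    (hac : ∀ᶠ n in f, ContinuousOn (a n) (Icc 0 1))
    (hMc : ∀ᶠ n in f, ∀ i, ContinuousOn (fun θ => M n θ i) (Icc 0 1))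
    (hab : ∀ᶠ n in f, ∀ θ ∈ Icc (0 : Fin d → ℝ) 1, ‖a n θ‖ ≤ K θ)
    (hMb : ∀ᶠ n in f, ∀ θ ∈ Icc (0 : Fin d → ℝ) 1, ∀ i j, ‖M n θ i j‖ ≤ K θ)
    (hat : ∀ θ ∈ Icc (0 : Fin d → ℝ) 1, Tendsto (fun n => a n θ) f (𝓝 (a' θ)))
    (hMt : ∀ θ ∈ Icc (0 : Fin d → ℝ) 1, ∀ i j, Tendsto (fun n => M n θ i j) f (𝓝 (M' θ i j))) :
    Tendsto (fun n => ∫ θ in Icc (0 : Fin d → ℝ) 1, a n θ * (Matrix.of (M n θ)).det) f
      (𝓝 (∫ θ in Icc (0 : Fin d → ℝ) 1, a' θ * (Matrix.of (M' θ)).det)) := by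
  refine tendsto_integral_filter_of_dominated_convergence
    (fun θ => K θ * (d.factorial * K θ ^ d)) ?_ ?_ ?_ ?_
  · filter_upwards [hac, hMc] with n h1 h2
    exact (h1.mul (cont_det h2)).aestronglyMeasurable measurableSet_Icc
  · filter_upwards [hab, hMb] with n h1 h2
    refine (ae_restrict_iff' measurableSet_Icc).2 (Eventually.of_forall fun θ hθ => ?_)
    rw [norm_mul]
    have h3 := TH826.MK.norm_det_le (M n θ) (fun _ => K θ) fun i j => h2 θ hθ i j
    rw [Finset.prod_const, Finset.card_univ, Fintype.card_fin] at h3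
    have h4 := h1 θ hθ
    exact mul_le_mul h4 h3 (norm_nonneg _) ((norm_nonneg _).trans h4)
  · exact (hK.mul (continuousOn_const.mul (hK.pow d))).integrableOn_compact isCompact_Icc
  · refine (ae_restrict_iff' measurableSet_Icc).2 (Eventually.of_forall fun θ hθ => ?_)
    refine (hat θ hθ).mul ?_
    have h1 : Tendsto (fun n => M n θ) f (𝓝 (M' θ)) :=
      tendsto_pi_nhds.2 fun i => tendsto_pi_nhds.2 fun j => hMt θ hθ i j
    exact ((TH826.MK.detC d).cont.tendsto _).comp h1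

/-- Functions on an open subset of `ℂ` which converge together with their derivatives. -/
structure Cvg {ι : Type*} (f : Filter ι) (S : Set ℂ) (φ φ' : ι → ℂ → ℂ) (ψ ψ' : ℂ → ℂ)
    (B : ℂ → ℝ) : Prop where
  deriv : ∀ᶠ n in f, ∀ z ∈ S, HasDerivAt (φ n) (φ' n z) z
  cont : ∀ᶠ n in f, ContinuousOn (φ' n) S
  deriv' : ∀ z ∈ S, HasDerivAt ψ (ψ' z) z
  bound : ∀ᶠ n in f, ∀ z ∈ S, ‖φ n z‖ ≤ B z ∧ ‖φ' n z‖ ≤ B z
  contB : ContinuousOn B S
  nonneg : ∀ z ∈ S, 0 ≤ B z
  lim : ∀ z ∈ S, Tendsto (fun n => φ n z) f (𝓝 (ψ z))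
  lim' : ∀ z ∈ S, Tendsto (fun n => φ' n z) f (𝓝 (ψ' z))

theorem Cvg.tendsto {ι : Type*} {f : Filter ι} [f.IsCountablyGenerated] {S : Set ℂ}
    {φ φ' : ι → ℂ → ℂ} {ψ ψ' : ℂ → ℂ} {B : ℂ → ℝ} (h : Cvg f S φ φ' ψ ψ' B)
    {F : Fin (d + 1) → (Fin d → ℝ) → ℂ} (hF : ∀ i, Sm (F i))
    (hS : ∀ i, ∀ θ ∈ Icc (0 : Fin d → ℝ) 1, F i θ ∈ S) :
    Tendsto (fun n => ∫ θ in Icc (0 : Fin d → ℝ) 1, φ n (F 0 θ) *
        jac (fun i θ => φ n (F i.succ θ)) θ) f
      (𝓝 (∫ θ in Icc (0 : Fin d → ℝ) 1, ψ (F 0 θ) * jac (fun i θ => ψ (F i.succ θ)) θ)) := by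
  have e1 : ∀ᶠ n in f, (∫ θ in Icc (0 : Fin d → ℝ) 1, φ n (F 0 θ) *
      (Matrix.of fun i : Fin d => φ' n (F i.succ θ) • pd (F i.succ) θ).det) =
      ∫ θ in Icc (0 : Fin d → ℝ) 1, φ n (F 0 θ) * jac (fun i θ => φ n (F i.succ θ)) θ := by
    filter_upwards [h.deriv] with n hn
    refine setIntegral_congr_fun measurableSet_Icc fun θ hθ => ?_
    simp only [jac]
    congr 3
    funext i
    exact (pd_comp ((hF _).diff hθ) (hn _ (hS _ θ hθ))).symm
  have e2 : (∫ θ in Icc (0 : Fin d → ℝ) 1, ψ (F 0 θ) *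
      (Matrix.of fun i : Fin d => ψ' (F i.succ θ) • pd (F i.succ) θ).det) =
      ∫ θ in Icc (0 : Fin d → ℝ) 1, ψ (F 0 θ) * jac (fun i θ => ψ (F i.succ θ)) θ := by
    refine setIntegral_congr_fun measurableSet_Icc fun θ hθ => ?_
    simp only [jac]
    congr 3
    funext i
    exact (pd_comp ((hF _).diff hθ) (h.deriv' _ (hS _ θ hθ))).symm
  rw [← e2]
  refine Tendsto.congr' e1 ?_
  have hcomp : ∀ (G : ℂ → ℂ) i, ContinuousOn G S → ContinuousOn (fun θ => G (F i θ))
      (Icc (0 : Fin d → ℝ) 1) := fun G i hG => hG.comp (hF i).cont fun θ hθ => hS i θ hθ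
  have hcompB : ∀ i, ContinuousOn (fun θ => B (F i θ)) (Icc (0 : Fin d → ℝ) 1) :=
    fun i => h.contB.comp (hF i).cont fun θ hθ => hS i θ hθ
  have hpd : ∀ i j, ContinuousOn (fun θ => pd (F i) θ j) (Icc (0 : Fin d → ℝ) 1) :=
    fun i j => continuousOn_pi.1 (hF i).cont_pd j
  refine tendsto_int (a := fun n θ => φ n (F 0 θ))
    (M := fun n θ i => φ' n (F i.succ θ) • pd (F i.succ) θ)
    (a' := fun θ => ψ (F 0 θ)) (M' := fun θ i => ψ' (F i.succ θ) • pd (F i.succ) θ)
    (K := fun θ => B (F 0 θ) + ∑ i : Fin d, ∑ j : Fin d, B (F i.succ θ) * ‖pd (F i.succ) θ j‖)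
    ?_ ?_ ?_ ?_ ?_ ?_ ?_
  · refine (hcompB 0).add (continuousOn_finsetSum _ fun i _ => continuousOn_finsetSum _ fun j _ => ?_)
    exact (hcompB _).mul (hpd _ j).norm
  · filter_upwards [h.deriv] with n hn
    exact hcomp _ 0 fun z hz => (hn z hz).continuousAt.continuousWithinAt
  · filter_upwards [h.cont] with n hn i
    exact (hcomp _ _ hn).smul (hF _).cont_pd
  · filter_upwards [h.bound] with n hn θ hθ
    refine ((hn _ (hS 0 θ hθ)).1).trans (le_add_of_nonneg_right ?_)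
    exact Finset.sum_nonneg fun i _ => Finset.sum_nonneg fun j _ =>
      mul_nonneg (h.nonneg _ (hS _ θ hθ)) (norm_nonneg _)
  · filter_upwards [h.bound] with n hn θ hθ i j
    have h1 : ‖(φ' n (F i.succ θ) • pd (F i.succ) θ) j‖ ≤
        B (F i.succ θ) * ‖pd (F i.succ) θ j‖ := by
      rw [Pi.smul_apply, smul_eq_mul, norm_mul]
      exact mul_le_mul_of_nonneg_right (hn _ (hS _ θ hθ)).2 (norm_nonneg _)
    refine h1.trans ?_
    have h2 : ∀ i' j' : Fin d, 0 ≤ B (F i'.succ θ) * ‖pd (F i'.succ) θ j'‖ := fun i' j' =>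
      mul_nonneg (h.nonneg _ (hS _ θ hθ)) (norm_nonneg _)
    refine le_trans ?_ (le_add_of_nonneg_left (h.nonneg _ (hS 0 θ hθ)))
    refine le_trans ?_ (Finset.single_le_sum (f := fun i' : Fin d => ∑ j' : Fin d,
      B (F i'.succ θ) * ‖pd (F i'.succ) θ j'‖)
      (fun i' _ => Finset.sum_nonneg fun j' _ => h2 i' j') (Finset.mem_univ i))
    exact Finset.single_le_sum (f := fun j' : Fin d => B (F i.succ θ) * ‖pd (F i.succ) θ j'‖)
      (fun j' _ => h2 i j') (Finset.mem_univ j)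
  · intro θ hθ
    exact h.lim _ (hS 0 θ hθ)
  · intro θ hθ i j
    simp only [Pi.smul_apply, smul_eq_mul]
    exact (h.lim' _ (hS _ θ hθ)).mul_const _

section logs

/-- `log (1 - z / c)` -/
noncomputable def lg (c : ℝ) (z : ℂ) : ℂ := Complex.log (1 - z / c)

theorem slit {c : ℝ} {z : ℂ} (hz : ‖z‖ < c) : 1 - z / c ∈ Complex.slitPlane := by
  have hc : 0 < c := lt_of_le_of_lt (norm_nonneg _) hz
  rw [sub_eq_add_neg]
  refine Complex.mem_slitPlane_of_norm_lt_one ?_
  rw [norm_neg, norm_div, Complex.norm_real, Real.norm_of_nonneg hc.le, div_lt_one hc]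
  exact hz

theorem ne_of_lt {c : ℝ} {z : ℂ} (hz : ‖z‖ < c) : (c : ℂ) - z ≠ 0 := by
  intro h
  have h1 : z = c := (sub_eq_zero.1 h).symm
  have hc : 0 < c := lt_of_le_of_lt (norm_nonneg _) hz
  rw [h1, Complex.norm_real, Real.norm_of_nonneg hc.le] at hz
  exact lt_irrefl _ hz

theorem hasDerivAt_lg {c : ℝ} {z : ℂ} (hz : ‖z‖ < c) :
    HasDerivAt (lg c) (-(1 / ((c : ℂ) - z))) z := by
  have hc : 0 < c := lt_of_le_of_lt (norm_nonneg _) hz
  have h1 : HasDerivAt (fun z : ℂ => 1 - z / c) (-(1 / (c : ℂ))) z := by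
    simpa using ((hasDerivAt_id z).div_const (c : ℂ)).const_sub 1
  refine (h1.clog (slit hz)).congr_deriv ?_
  have h2 := ne_of_lt hz
  have h3 : (c : ℂ) ≠ 0 := by exact_mod_cast hc.ne'
  have h4 : 1 - z / c ≠ 0 := Complex.slitPlane_ne_zero (slit hz)
  field_simp

theorem exp_lg {c : ℝ} {z : ℂ} (hz : ‖z‖ < c) : (c : ℂ) * Complex.exp (lg c z) = c - z := by
  have hc : 0 < c := lt_of_le_of_lt (norm_nonneg _) hz
  have h3 : (c : ℂ) ≠ 0 := by exact_mod_cast hc.ne'
  unfold lg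
  rw [Complex.exp_log (Complex.slitPlane_ne_zero (slit hz))]
  field_simp

/-- The functions `c log (1 - z / c)` converge to `- z`. -/
theorem cvg_lg (M : ℝ) : Cvg (atTop : Filter ℕ) (Metric.ball (0 : ℂ) M)
    (fun c z => c * lg c z) (fun c z => c * -(1 / ((c : ℂ) - z))) (fun z => -z) (fun _ => -1)
    (fun z => 2 * ‖z‖ + 2) where
  deriv := by
    filter_upwards [eventually_ge_atTop ⌈M⌉₊] with c hc z hz
    have h1 : ‖z‖ < (c : ℝ) := (mem_ball_zero_iff.1 hz).trans_le ((Nat.le_ceil M).trans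
      (by exact_mod_cast hc))
    have := (hasDerivAt_lg h1).const_mul (c : ℂ)
    simpa using this
  cont := by
    filter_upwards [eventually_ge_atTop ⌈M⌉₊] with c hc
    have h1 : ∀ z ∈ Metric.ball (0 : ℂ) M, ((c : ℝ) : ℂ) - z ≠ 0 := fun z hz => ne_of_lt
      ((mem_ball_zero_iff.1 hz).trans_le ((Nat.le_ceil M).trans (by exact_mod_cast hc)))
    refine continuousOn_const.mul (ContinuousOn.neg (ContinuousOn.div continuousOn_const
      (continuousOn_const.sub continuousOn_id) fun z hz => ?_))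
    have := h1 z hz
    simpa using this
  deriv' z _ := (hasDerivAt_id z).neg
  bound := by
    filter_upwards [eventually_ge_atTop (⌈2 * M⌉₊ + 1)] with c hc z hz
    have hz' := mem_ball_zero_iff.1 hz
    have h0 : 2 * M < (c : ℝ) := by
      have h1 : ((⌈2 * M⌉₊ : ℕ) : ℝ) + 1 ≤ (c : ℝ) := by exact_mod_cast hc
      linarith [Nat.le_ceil (2 * M)]
    have hc0 : 0 < (c : ℝ) := by linarith [norm_nonneg z]
    have hzc : ‖z / (c : ℂ)‖ = ‖z‖ / c := by
      rw [norm_div, Complex.norm_natCast]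
    constructor
    · have h1 : ‖lg c z‖ ≤ 3 / 2 * ‖-(z / (c : ℂ))‖ := by
        have h2 := Complex.norm_log_one_add_half_le_self (z := -(z / (c : ℂ))) (by
          rw [norm_neg, hzc, div_le_iff₀ hc0]
          linarith)
        rw [← sub_eq_add_neg] at h2
        simpa [lg] using h2
      rw [norm_neg, hzc] at h1
      rw [norm_mul, Complex.norm_natCast]
      have h3 : (c : ℝ) * ‖lg c z‖ ≤ c * (3 / 2 * (‖z‖ / c)) :=
        mul_le_mul_of_nonneg_left h1 hc0.le
      have h4 : (c : ℝ) * (3 / 2 * (‖z‖ / c)) = 3 / 2 * ‖z‖ := by field_simp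
      linarith [norm_nonneg z]
    · have h1 : (c : ℝ) / 2 ≤ ‖(c : ℂ) - z‖ := by
        have := norm_sub_norm_le (c : ℂ) z
        rw [Complex.norm_natCast] at this
        linarith
      rw [norm_mul, norm_neg, norm_div, norm_one, Complex.norm_natCast]
      have h2 : (c : ℝ) * (1 / ‖(c : ℂ) - z‖) ≤ 2 := by
        rw [mul_one_div, div_le_iff₀ (by linarith)]
        linarith
      linarith [norm_nonneg z]
  contB := (by fun_prop : Continuous fun z : ℂ => 2 * ‖z‖ + 2).continuousOn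
  nonneg z _ := by positivity
  lim z _ := by
    have h1 : Tendsto (fun c : ℕ => (c : ℂ) * lg c z + z) atTop (𝓝 0) := by
      refine squeeze_zero_norm' (a := fun c : ℕ => ‖z‖ ^ 2 / c) ?_ ?_
      · filter_upwards [eventually_ge_atTop (⌈2 * ‖z‖⌉₊ + 1)] with c hc
        have h0 : 2 * ‖z‖ < (c : ℝ) := by
          have h1 : ((⌈2 * ‖z‖⌉₊ : ℕ) : ℝ) + 1 ≤ (c : ℝ) := by exact_mod_cast hc
          linarith [Nat.le_ceil (2 * ‖z‖)]
        have hc0 : 0 < (c : ℝ) := by linarith [norm_nonneg z]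
        have hzc : ‖z / (c : ℂ)‖ = ‖z‖ / c := by
          rw [norm_div, Complex.norm_natCast]
        have hlt : ‖z‖ / c < 1 / 2 := by
          rw [div_lt_iff₀ hc0]
          linarith
        have h2 := Complex.norm_log_one_add_sub_self_le (z := -(z / (c : ℂ))) (by
          rw [norm_neg, hzc]
          linarith)
        rw [← sub_eq_add_neg, sub_neg_eq_add, norm_neg, hzc] at h2
        have h3 : (c : ℂ) * lg c z + z = (c : ℂ) * (Complex.log (1 - z / c) + z / c) := by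
          have : (c : ℂ) ≠ 0 := by
            have : (c : ℝ) ≠ 0 := hc0.ne'
            exact_mod_cast this
          unfold lg
          push_cast
          field_simp
        rw [h3, norm_mul, Complex.norm_natCast]
        have h4 : (1 - ‖z‖ / (c : ℝ))⁻¹ ≤ 2 := by
          rw [inv_le_comm₀ (by linarith) (by norm_num)]
          linarith
        have h5 : (c : ℝ) * ‖Complex.log (1 - z / c) + z / c‖ ≤
            c * ((‖z‖ / c) ^ 2 * 2 / 2) := by
          refine mul_le_mul_of_nonneg_left (h2.trans ?_) hc0.le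
          refine div_le_div_of_nonneg_right ?_ (by norm_num)
          exact mul_le_mul_of_nonneg_left h4 (by positivity)
        refine h5.trans (le_of_eq ?_)
        field_simp
      · exact tendsto_const_div_atTop_nhds_zero_nat _
    have h2 := h1.sub_const z
    simpa using h2
  lim' z _ := by
    have h1 : Tendsto (fun c : ℕ => z / (c : ℂ)) atTop (𝓝 0) :=
      tendsto_const_div_atTop_nhds_zero_nat z
    have h2 : Tendsto (fun c : ℕ => -(1 / (1 - z / (c : ℂ)))) atTop (𝓝 (-(1 / (1 - 0)))) :=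
      ((tendsto_const_nhds.div (tendsto_const_nhds.sub h1) (by simp))).neg
    rw [sub_zero, div_one] at h2
    refine h2.congr' ?_
    filter_upwards [eventually_gt_atTop 0] with c hc
    have hc' : (c : ℂ) ≠ 0 := by exact_mod_cast hc.ne'
    by_cases h3 : (c : ℂ) - z = 0
    · have h4 : 1 - z / (c : ℂ) = 0 := by
        rw [← sub_eq_zero.1 h3, div_self hc', sub_self]
      rw [h3, h4]
      simp
    · have h4 : 1 - z / (c : ℂ) ≠ 0 := by
        intro h5
        apply h3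
        have : (c : ℂ) - z = c * (1 - z / c) := by field_simp
        rw [this, h5, mul_zero]
      field_simp

/-- the partial sums of the series of `- log (1 - z / c)` -/
noncomputable def ps (c : ℝ) (N : ℕ) (z : ℂ) : ℂ :=
  ∑ k ∈ Finset.range (N + 1), (z / c) ^ k / k

/-- their derivatives -/
noncomputable def ps' (c : ℝ) (N : ℕ) (z : ℂ) : ℂ :=
  (∑ k ∈ Finset.range N, (z / c) ^ k) / c

theorem hasDerivAt_ps {c : ℝ} (N : ℕ) (z : ℂ) : HasDerivAt (ps c N) (ps' c N z) z := by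
  have h1 : ∀ k ∈ Finset.range (N + 1), HasDerivAt (fun z : ℂ => (z / c) ^ k / (k : ℂ))
      ((k : ℂ) * (z / c) ^ (k - 1) * (1 / c) / k) z := by
    intro k _
    have h2 : HasDerivAt (fun z : ℂ => z / (c : ℂ)) (1 / (c : ℂ)) z := (hasDerivAt_id z).div_const _
    exact (h2.pow k).div_const _
  have h := HasDerivAt.fun_sum h1
  refine h.congr_deriv ?_
  rw [Finset.sum_range_succ', ps', Finset.sum_div]
  simp only [Nat.cast_zero, zero_mul, zero_div, add_zero]
  refine Finset.sum_congr rfl fun k _ => ?_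
  have hk : ((k + 1 : ℕ) : ℂ) ≠ 0 := Nat.cast_ne_zero.2 (Nat.succ_ne_zero k)
  rw [Nat.add_sub_cancel]
  field_simp

theorem cvg_ps {c : ℝ} (hc : 0 < c) : Cvg (atTop : Filter ℕ) (Metric.ball (0 : ℂ) c)
    (ps c) (ps' c) (fun z => -lg c z) (fun z => 1 / ((c : ℂ) - z))
    (fun z => (1 + 1 / c) * (1 - ‖z‖ / c)⁻¹) where
  deriv := Eventually.of_forall fun N z _ => hasDerivAt_ps N z
  cont := by
    refine Eventually.of_forall fun N => Continuous.continuousOn ?_
    unfold ps'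
    fun_prop
  deriv' z hz := by
    have h := (hasDerivAt_lg (mem_ball_zero_iff.1 hz)).neg
    rw [neg_neg] at h
    exact h
  bound := by
    refine Eventually.of_forall fun N z hz => ?_
    have hz' := mem_ball_zero_iff.1 hz
    have hr0 : 0 ≤ ‖z‖ / c := by positivity
    have hr1 : ‖z‖ / c < 1 := by rwa [div_lt_one hc]
    have hnc : ‖z / (c : ℂ)‖ = ‖z‖ / c := by
      rw [norm_div, Complex.norm_real, Real.norm_of_nonneg hc.le]
    have hg : ∀ s : Finset ℕ, ∑ k ∈ s, (‖z‖ / c) ^ k ≤ (1 - ‖z‖ / c)⁻¹ := by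
      intro s
      rw [← tsum_geometric_of_lt_one hr0 hr1]
      exact (summable_geometric_of_lt_one hr0 hr1).sum_le_tsum s fun k _ => by positivity
    have hpos : 0 ≤ (1 - ‖z‖ / c)⁻¹ := inv_nonneg.2 (by linarith)
    have hc1 : 0 < 1 / c := by positivity
    constructor
    · have h1 : ‖ps c N z‖ ≤ (1 - ‖z‖ / c)⁻¹ := by
        refine (norm_sum_le _ _).trans (le_trans ?_ (hg (Finset.range (N + 1))))
        refine Finset.sum_le_sum fun k _ => ?_
        rw [norm_div, norm_pow, hnc, Complex.norm_natCast]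
        rcases Nat.eq_zero_or_pos k with rfl | hk
        · simp
        · refine div_le_self (by positivity) ?_
          exact_mod_cast hk
      nlinarith
    · have h1 : ‖ps' c N z‖ ≤ (1 - ‖z‖ / c)⁻¹ / c := by
        unfold ps'
        rw [norm_div, Complex.norm_real, Real.norm_of_nonneg hc.le]
        refine div_le_div_of_nonneg_right ?_ hc.le
        refine (norm_sum_le _ _).trans (le_trans ?_ (hg (Finset.range N)))
        refine Finset.sum_le_sum fun k _ => ?_
        rw [norm_pow, hnc]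
      have h2 : (1 - ‖z‖ / c)⁻¹ / c = 1 / c * (1 - ‖z‖ / c)⁻¹ := by ring
      rw [h2] at h1
      nlinarith
  contB := by
    refine continuousOn_const.mul (ContinuousOn.inv₀ ?_ fun z hz => ?_)
    · exact (continuous_const.sub (continuous_norm.div_const c)).continuousOn
    · have h : ‖z‖ / c < 1 := by
        rw [div_lt_one hc]
        exact mem_ball_zero_iff.1 hz
      exact (sub_pos.2 h).ne'
  nonneg z hz := by
    have h : ‖z‖ / c < 1 := by
      rw [div_lt_one hc]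
      exact mem_ball_zero_iff.1 hz
    have := sub_pos.2 h
    positivity
  lim z hz := by
    have hz' := mem_ball_zero_iff.1 hz
    have hnc : ‖z / (c : ℂ)‖ < 1 := by
      rw [norm_div, Complex.norm_real, Real.norm_of_nonneg hc.le, div_lt_one hc]
      exact hz'
    exact (Complex.hasSum_taylorSeries_neg_log hnc).tendsto_sum_nat.comp (tendsto_add_atTop_nat 1)
  lim' z hz := by
    have hz' := mem_ball_zero_iff.1 hz
    have hnc : ‖z / (c : ℂ)‖ < 1 := by
      rw [norm_div, Complex.norm_real, Real.norm_of_nonneg hc.le, div_lt_one hc]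
      exact hz'
    have h1 := ((hasSum_geometric_of_norm_lt_one hnc).tendsto_sum_nat).div_const (c : ℂ)
    have h2 : (1 - z / (c : ℂ))⁻¹ / c = 1 / ((c : ℂ) - z) := by
      have h3 := ne_of_lt hz'
      have h4 : (c : ℂ) ≠ 0 := by exact_mod_cast hc.ne'
      have h5 : 1 - z / (c : ℂ) ≠ 0 := Complex.slitPlane_ne_zero (slit hz')
      field_simp
    rw [h2] at h1
    exact h1

end logs

end Pool.Agent.U374.Dn
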