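import Pool.Agent.U374.Dn.Lim
set_option autoImplicit false

/-!
The closure of the regulators of the symbols `{c - f_0, ..., c - f_d}`.
-/

namespace Pool.Agent.U374.Dn

open MeasureTheory Set Filter

open scoped Topology

open Pool.Agent.TH826.MK (pairing)

section defs

variable {A : Type*} [CommRing A] {d : ℕ}

/-- The period `∫_Z f_0 d f_1 ∧ ... ∧ d f_d`. -/
noncomputable def Cyc.period (Z : Cyc A d) (f : Fin (d + 1) → A) : ℂ :=
  ∑ l, (Z.s l : ℂ) * ∫ θ in Icc (0 : Fin d → ℝ) 1,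
    Z.e l θ (f 0) * jac (fun i θ => Z.e l θ (f i.succ)) θ

/-- The regulator of the symbol `{g_0, ..., g_d}` on `Z`. -/
noncomputable def Cyc.reg (Z : Cyc A d) (g : Fin (d + 1) → A) : ℝ :=
  ∑ l, Z.s l * pairing fun i θ => Z.e l θ (g i)

/-- `|f_i| < c` on `Z` -/
def Cyc.Small (Z : Cyc A d) (f : Fin (d + 1) → A) (c : ℝ) : Prop :=
  ∀ l, ∀ θ ∈ Icc (0 : Fin d → ℝ) 1, ∀ i, ‖Z.e l θ (f i)‖ < c

end defs

section jac

variable {d : ℕ}

theorem jac_const_mul (c : ℂ) {u : Fin d → (Fin d → ℝ) → ℂ} {θ : Fin d → ℝ}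
    (h : ∀ i, DifferentiableAt ℝ (u i) θ) :
    jac (fun i θ => c * u i θ) θ = c ^ d * jac u θ := by
  unfold jac
  have e : (Matrix.of fun i => pd (fun θ => c * u i θ) θ) = c • Matrix.of fun i => pd (u i) θ := by
    ext i j
    show fderiv ℝ (fun θ => c * u i θ) θ _ = c * fderiv ℝ (u i) θ _
    rw [fderiv_const_mul (h i)]
    rfl
  rw [e, Matrix.det_smul, Fintype.card_fin]

end jac

section reg

variable {A : Type*} [CommRing A] {n : ℕ} (Z : Cyc A (n + 1)) {f : Fin (n + 2) → A}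

theorem Cyc.smf {d : ℕ} (Z : Cyc A d) (a : A) (l : Fin Z.N) : Sm fun θ => Z.e l θ a :=
  fun _ _ => (Z.smooth l a).contDiffAt

/-- the integral `∫_Z φ(f_0) dφ(f_1) ∧ ... ∧ dφ(f_d)` -/
noncomputable def Cyc.int (Z : Cyc A (n + 1)) (φ : ℂ → ℂ) (f : Fin (n + 2) → A) : ℂ :=
  ∑ l, (Z.s l : ℂ) * ∫ θ in Icc (0 : Fin (n + 1) → ℝ) 1,
    φ (Z.e l θ (f 0)) * jac (fun (i : Fin (n + 1)) θ => φ (Z.e l θ (f i.succ))) θ

theorem Cyc.int_const_mul (c : ℂ) {φ φ' : ℂ → ℂ} {S : Set ℂ} (hφ : ∀ z ∈ S, HasDerivAt φ (φ' z) z)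
    (hS : ∀ l, ∀ θ ∈ Icc (0 : Fin (n + 1) → ℝ) 1, ∀ i, Z.e l θ (f i) ∈ S) :
    Z.int (fun z => c * φ z) f = c ^ (n + 2) * Z.int φ f := by
  unfold Cyc.int
  rw [Finset.mul_sum]
  refine Finset.sum_congr rfl fun l _ => ?_
  rw [mul_left_comm]
  congr 1
  rw [← integral_const_mul]
  refine setIntegral_congr_fun measurableSet_Icc fun θ hθ => ?_
  have h : ∀ i : Fin (n + 1), DifferentiableAt ℝ (fun θ => φ (Z.e l θ (f i.succ))) θ := fun i =>
    ((hφ _ (hS l θ hθ i.succ)).comp_hasFDerivAt θ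
      ((Z.smf (f i.succ) l).diff hθ).hasFDerivAt).differentiableAt
  simp only
  rw [jac_const_mul c h]
  ring

theorem Cyc.reg_eq {c : ℕ} (hc : 0 < c) (hf : Z.Small f c) :
    Z.reg (fun i => (c : A) - f i) = ((-Complex.I) ^ (n + 1) * Z.int (lg c) f).re := by
  have hc' : (c : ℂ) ≠ 0 := by exact_mod_cast hc.ne'
  set V : Set (Fin (n + 2) → ℂ) := {z | ∀ i, ‖z i‖ < c} with hVdef
  have hV : IsOpen V := by
    have : V = ⋂ i, {z : Fin (n + 2) → ℂ | ‖z i‖ < c} := by
      ext z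
      simp [hVdef]
    rw [this]
    refine isOpen_iInter_of_finite fun i => ?_
    have h1 : Continuous fun z : Fin (n + 2) → ℂ => ‖z i‖ := (continuous_apply i).norm
    exact isOpen_lt h1 (continuous_const (y := (c : ℝ)))
  have hZ : ∀ l, ∀ θ ∈ Icc (0 : Fin (n + 1) → ℝ) 1, Z.pt f l θ ∈ V := fun l θ hθ i => hf l θ hθ i
  have hΦ : ∀ i : Fin (n + 2), ContDiffOn ℝ 2 (fun z : Fin (n + 2) → ℂ => lg c (z i)) V := by
    intro i z hz
    have h1 : ContDiffAt ℝ 2 (fun z : Fin (n + 2) → ℂ => 1 - z i / ((c : ℝ) : ℂ)) z :=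
      contDiffAt_const.sub ((contDiff_apply ℝ ℂ i).contDiffAt.div_const _)
    have h2 : ContDiffAt ℝ 2 Complex.log (1 - z i / ((c : ℝ) : ℂ)) :=
      (Complex.contDiffAt_log (slit (hz i))).restrict_scalars ℝ
    exact (h2.comp z h1).contDiffWithinAt
  refine Z.sum_pairing hV hZ (Φ := fun i z => lg c (z i)) hΦ hc'
    (g := fun l i θ => Z.e l θ ((c : A) - f i)) fun l i θ hθ => ?_
  have h1 : ∀ᶠ x in 𝓝 θ, ‖Z.e l x (f i)‖ < c :=
    ((Z.smooth l (f i)).continuous.norm.continuousAt).eventually_lt continuousAt_const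
      (hf l θ hθ i)
  filter_upwards [h1] with x hx
  have h2 := exp_lg (c := (c : ℝ)) hx
  rw [map_sub, map_natCast]
  exact_mod_cast h2.symm

theorem Cyc.exists_bound {d : ℕ} (Z : Cyc A d) (f : Fin (d + 1) → A) : ∃ M : ℝ, Z.Small f M := by
  have h : ∀ (l : Fin Z.N) (i : Fin (d + 1)), ∃ M : ℝ, ∀ θ ∈ Icc (0 : Fin d → ℝ) 1,
      ‖Z.e l θ (f i)‖ ≤ M := fun l i =>
    isCompact_Icc.exists_bound_of_continuousOn (Z.smooth l (f i)).continuous.continuousOn
  choose M hM using h
  refine ⟨(∑ l, ∑ i, |M l i|) + 1, fun l θ hθ i => ?_⟩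
  have h1 := hM l i θ hθ
  have h2 : |M l i| ≤ ∑ i, |M l i| :=
    Finset.single_le_sum (f := fun i => |M l i|) (fun _ _ => abs_nonneg _) (Finset.mem_univ i)
  have h3 : ∑ i, |M l i| ≤ ∑ l, ∑ i, |M l i| :=
    Finset.single_le_sum (f := fun l => ∑ i, |M l i|)
      (fun _ _ => Finset.sum_nonneg fun _ _ => abs_nonneg _) (Finset.mem_univ l)
  have := le_abs_self (M l i)
  linarith

theorem Cyc.tendsto_int' {ι : Type*} {g : Filter ι} [g.IsCountablyGenerated] {S : Set ℂ}
    {φ φ' : ι → ℂ → ℂ} {ψ ψ' : ℂ → ℂ} {B : ℂ → ℝ} (h : Cvg g S φ φ' ψ ψ' B)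
    (hS : ∀ l, ∀ θ ∈ Icc (0 : Fin (n + 1) → ℝ) 1, ∀ i, Z.e l θ (f i) ∈ S) :
    Tendsto (fun k => Z.int (φ k) f) g (𝓝 (Z.int ψ f)) := by
  unfold Cyc.int
  refine tendsto_finsetSum _ fun l _ => Tendsto.const_mul _ ?_
  exact h.tendsto (F := fun i θ => Z.e l θ (f i)) (fun i => Z.smf (f i) l)
    fun i θ hθ => hS l θ hθ i

theorem continuous_re_mul (w : ℂ) : Continuous fun z : ℂ => (w * z).re :=
  Complex.continuous_re.comp (continuous_const.mul continuous_id)

theorem int_id (f : Fin (n + 2) → A) : Z.int (fun z => z) f = Z.period f := rfl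

/-- The leading term of the regulators. -/
theorem Cyc.tendsto_reg (f : Fin (n + 2) → A) :
    Tendsto (fun c : ℕ => (c : ℝ) ^ (n + 2) * Z.reg fun i => (c : A) - f i) atTop
      (𝓝 ((-1) ^ (n + 2) * ((-Complex.I) ^ (n + 1) * Z.period f).re)) := by
  obtain ⟨M, hM⟩ := Z.exists_bound f
  have hS : ∀ l, ∀ θ ∈ Icc (0 : Fin (n + 1) → ℝ) 1, ∀ i, Z.e l θ (f i) ∈ Metric.ball (0 : ℂ) M :=
    fun l θ hθ i => mem_ball_zero_iff.2 (hM l θ hθ i)
  have h1 := Z.tendsto_int' (cvg_lg M) hS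
  have h2 : Z.int (fun z => -z) f = (-1) ^ (n + 2) * Z.period f := by
    have h3 := Z.int_const_mul (f := f) (-1) (φ := fun z => z) (φ' := fun _ => 1)
      (S := Metric.ball (0 : ℂ) M) (fun z _ => hasDerivAt_id z) hS
    rw [int_id] at h3
    rw [← h3]
    congr 1
    funext z
    ring
  rw [h2] at h1
  have h4 := ((continuous_re_mul ((-Complex.I) ^ (n + 1))).tendsto _).comp h1
  have e : ((-Complex.I) ^ (n + 1) * ((-1) ^ (n + 2) * Z.period f)).re =
      (-1) ^ (n + 2) * ((-Complex.I) ^ (n + 1) * Z.period f).re := by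
    have h5 : (-Complex.I) ^ (n + 1) * ((-1) ^ (n + 2) * Z.period f) =
        (((-1) ^ (n + 2) : ℝ) : ℂ) * ((-Complex.I) ^ (n + 1) * Z.period f) := by
      push_cast
      ring
    rw [h5, Complex.re_ofReal_mul]
  rw [e] at h4
  refine h4.congr' ?_
  filter_upwards [eventually_ge_atTop (⌈M⌉₊ + 1)] with c hc
  have hc0 : 0 < c := by omega
  have hMc : M ≤ (c : ℝ) := (Nat.le_ceil M).trans (by exact_mod_cast (by omega : ⌈M⌉₊ ≤ c))
  have hs : Z.Small f c := fun l θ hθ i => (hM l θ hθ i).trans_le hMc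
  have h6 := Z.int_const_mul (f := f) (c : ℂ) (φ := lg c) (S := Metric.ball (0 : ℂ) c)
    (fun z hz => hasDerivAt_lg (mem_ball_zero_iff.1 hz))
    (fun l θ hθ i => mem_ball_zero_iff.2 (hs l θ hθ i))
  simp only [Function.comp_apply]
  rw [h6, Z.reg_eq hc0 hs, mul_left_comm]
  have h7 : (c : ℂ) ^ (n + 2) * ((-Complex.I) ^ (n + 1) * Z.int (lg c) f) =
      (((c : ℝ) ^ (n + 2) : ℝ) : ℂ) * ((-Complex.I) ^ (n + 1) * Z.int (lg c) f) := by
    push_cast
    ring
  rw [h7, Complex.re_ofReal_mul]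

end reg

section rel

variable {A : Type*} [CommRing A] {n r : ℕ} (Z : Fin r → Cyc A (n + 1))

/-- the vector of the real periods -/
noncomputable def per (f : Fin (n + 2) → A) : Fin r → ℝ :=
  fun j => ((-Complex.I) ^ (n + 1) * (Z j).period f).re

/-- The vector `ρ` is compatible with the real linear relations between the cycles `Z_j` (of the real
parts of `(-i)^d` times their periods). -/
def Compatible (ρ : Fin r → ℝ) : Prop :=
  ∀ s : Fin r → ℝ, (∀ f : Fin (n + 2) → A,
    ∑ j, s j * ((-Complex.I) ^ (n + 1) * (Z j).period f).re = 0) → ∑ j, s j * ρ j = 0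

/-- the vector of the regulators of `{c - f_0, ..., c - f_d}` -/
noncomputable def regv (c : ℕ) (f : Fin (n + 2) → A) : Fin r → ℝ :=
  fun j => (Z j).reg fun i => (c : A) - f i

/-- the element `∑_k (N!/k) c^(N-k) a^k` -/
noncomputable def pol (c N : ℕ) (a : A) : A :=
  ∑ k ∈ Finset.range (N + 1), ((N.factorial / k * c ^ (N - k) : ℕ) : A) * a ^ k

theorem map_pol (c N : ℕ) (hc : 0 < c) (a : A) (e : A →+* ℂ) :
    e (pol c N a) = ((N.factorial * c ^ N : ℕ) : ℂ) * ps c N (e a) := by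
  have hc' : (c : ℂ) ≠ 0 := by exact_mod_cast hc.ne'
  unfold pol ps
  rw [map_sum, Finset.mul_sum]
  refine Finset.sum_congr rfl fun k hk => ?_
  have hkN : k ≤ N := Nat.lt_succ_iff.1 (Finset.mem_range.1 hk)
  rw [map_mul, map_natCast, map_pow]
  rcases Nat.eq_zero_or_pos k with rfl | hk0
  · simp
  · have hd : k ∣ N.factorial := Nat.dvd_factorial hk0 hkN
    have hk' : (k : ℂ) ≠ 0 := by exact_mod_cast hk0.ne'
    push_cast
    rw [Nat.cast_div hd hk', div_pow]
    have h1 : (c : ℂ) ^ N = c ^ (N - k) * c ^ k := by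
      rw [← pow_add, Nat.sub_add_cancel hkN]
    rw [h1]
    field_simp

theorem compatible_regv {c : ℕ} (hc : 0 < c) {f : Fin (n + 2) → A}
    (hf : ∀ j, (Z j).Small f c) : Compatible Z (regv Z c f) := by
  intro s hs
  have hc' : (0 : ℝ) < c := by exact_mod_cast hc
  have hS : ∀ j l, ∀ θ ∈ Icc (0 : Fin (n + 1) → ℝ) 1, ∀ i,
      (Z j).e l θ (f i) ∈ Metric.ball (0 : ℂ) c :=
    fun j l θ hθ i => mem_ball_zero_iff.2 (hf j l θ hθ i)
  have h1 : ∀ N : ℕ, ∑ j, s j * ((-Complex.I) ^ (n + 1) * (Z j).int (ps c N) f).re = 0 := by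
    intro N
    set K : ℕ := N.factorial * c ^ N with hK
    have hK0 : (0 : ℝ) < K := by
      rw [hK]
      exact_mod_cast Nat.mul_pos N.factorial_pos (pow_pos hc N)
    have h2 : ∀ j, (Z j).period (fun i => pol c N (f i)) =
        (((K : ℝ) ^ (n + 2) : ℝ) : ℂ) * (Z j).int (ps c N) f := by
      intro j
      have h3 := (Z j).int_const_mul (f := f) (K : ℂ) (φ := ps c N) (S := Metric.ball (0 : ℂ) c)
        (fun z _ => hasDerivAt_ps N z) (hS j)
      push_cast
      rw [← h3]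
      unfold Cyc.period Cyc.int
      simp only [map_pol c N hc]
      rfl
    have h4 := hs fun i => pol c N (f i)
    have h5 : ∀ j, s j * ((-Complex.I) ^ (n + 1) * (Z j).period fun i => pol c N (f i)).re =
        (K : ℝ) ^ (n + 2) * (s j * ((-Complex.I) ^ (n + 1) * (Z j).int (ps c N) f).re) := by
      intro j
      rw [h2 j, mul_left_comm ((-Complex.I) ^ (n + 1)), Complex.re_ofReal_mul]
      ring
    rw [Finset.sum_congr rfl fun j _ => h5 j, ← Finset.mul_sum] at h4
    exact (mul_eq_zero.1 h4).resolve_left (pow_pos hK0 _).ne'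
  have h2 : Tendsto (fun N => ∑ j, s j * ((-Complex.I) ^ (n + 1) * (Z j).int (ps c N) f).re) atTop
      (𝓝 (∑ j, s j * ((-Complex.I) ^ (n + 1) * (Z j).int (fun z => -lg c z) f).re)) := by
    refine tendsto_finsetSum _ fun j _ => Tendsto.const_mul _ ?_
    exact ((continuous_re_mul ((-Complex.I) ^ (n + 1))).tendsto _).comp
      ((Z j).tendsto_int' (cvg_ps hc') (hS j))
  simp only [h1] at h2
  have h3 := tendsto_nhds_unique tendsto_const_nhds h2
  have h4 : ∀ j, (Z j).int (fun z => -lg c z) f = (((-1) ^ (n + 2) : ℝ) : ℂ) * (Z j).int (lg c) f := by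
    intro j
    have h5 := (Z j).int_const_mul (f := f) (-1) (φ := lg c) (S := Metric.ball (0 : ℂ) c)
      (fun z hz => hasDerivAt_lg (mem_ball_zero_iff.1 hz)) (hS j)
    push_cast
    rw [← h5]
    congr 1
    funext z
    ring
  have h5 : ∀ j, s j * regv Z c f j = (-1) ^ (n + 2) *
      (s j * ((-Complex.I) ^ (n + 1) * (Z j).int (fun z => -lg c z) f).re) := by
    intro j
    unfold regv
    rw [(Z j).reg_eq hc (hf j), h4 j, mul_left_comm ((-Complex.I) ^ (n + 1)),
      Complex.re_ofReal_mul]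
    have hsq : ((-1 : ℝ)) ^ (n + 2) * (-1) ^ (n + 2) = 1 := by
      rw [← mul_pow]
      simp
    linear_combination (-(s j * ((-Complex.I) ^ (n + 1) * (Z j).int (lg c) f).re)) * hsq
  rw [Finset.sum_congr rfl fun j _ => h5 j, ← Finset.mul_sum, ← h3, mul_zero]

/-- The vectors compatible with the relations are the combinations of the vectors of periods. -/
theorem compatible_iff (ρ : Fin r → ℝ) :
    Compatible Z ρ ↔ ρ ∈ Submodule.span ℝ (Set.range (per Z)) := by
  constructor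
  · intro h
    by_contra hρ
    obtain ⟨φ, hφ, hle⟩ := Submodule.exists_le_ker_of_notMem hρ
    have hrep : ∀ x : Fin r → ℝ, φ x = ∑ j, φ (Pi.single j 1) * x j := by
      intro x
      have e : x = ∑ j, x j • (Pi.single j (1 : ℝ) : Fin r → ℝ) := by
        funext i
        simp [Finset.sum_apply, Pi.single_apply]
      conv_lhs => rw [e]
      rw [map_sum]
      refine Finset.sum_congr rfl fun j _ => ?_
      rw [map_smul, smul_eq_mul, mul_comm]
    apply hφ
    rw [hrep]
    refine h _ fun f => ?_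
    have h1 : φ (per Z f) = 0 := hle (Submodule.subset_span ⟨f, rfl⟩)
    rw [hrep] at h1
    exact h1
  · intro h s hs
    induction h using Submodule.span_induction with
    | mem x hx =>
      obtain ⟨f, rfl⟩ := hx
      exact hs f
    | zero => simp
    | add x y _ _ hx hy =>
      simp only [Pi.add_apply, mul_add, Finset.sum_add_distrib, hx, hy, add_zero]
    | smul c x _ hx =>
      have : ∀ j, s j * (c • x) j = c * (s j * x j) := fun j => by
        rw [Pi.smul_apply, smul_eq_mul]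
        ring
      simp only [this, ← Finset.mul_sum, hx, mul_zero]

/-- The closure of the rational combinations of a finite family of vectors. -/
theorem closure_rat {m : ℕ} (w : Fin m → Fin r → ℝ) :
    closure (Set.range fun q : Fin m → ℚ => ∑ k, (q k : ℝ) • w k) =
      (Submodule.span ℝ (Set.range w) : Set (Fin r → ℝ)) := by
  have hcont : Continuous fun x : Fin m → ℝ => ∑ k, x k • w k :=
    continuous_finsetSum _ fun k _ => (continuous_apply k).smul continuous_const
  apply Subset.antisymm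
  · refine closure_minimal ?_ (Submodule.closed_of_finiteDimensional _)
    rintro _ ⟨q, rfl⟩
    exact Submodule.sum_mem _ fun k _ => Submodule.smul_mem _ _ (Submodule.subset_span ⟨k, rfl⟩)
  · intro x hx
    obtain ⟨y, rfl⟩ := (Submodule.mem_span_range_iff_exists_fun ℝ).1 hx
    have hd : DenseRange fun q : Fin m → ℚ => fun k => ((q k : ℚ) : ℝ) :=
      DenseRange.piMap fun _ => Rat.denseRange_cast
    have h1 := hcont.range_subset_closure_image_dense (s := Set.range fun q : Fin m → ℚ =>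
      fun k => ((q k : ℚ) : ℝ)) hd
    have h2 := h1 ⟨y, rfl⟩
    rw [← Set.range_comp] at h2
    exact h2

theorem exists_family : ∃ (m : ℕ) (f : Fin m → Fin (n + 2) → A) (C : ℕ), ∀ c : ℕ, C ≤ c →
    (∀ k j, (Z j).Small (f k) c) ∧ LinearIndependent ℝ (fun k => regv Z c (f k)) ∧
    closure (Set.range fun q : Fin m → ℚ => ∑ k, (q k : ℝ) • regv Z c (f k)) =
      {ρ | Compatible Z ρ} := by
  obtain ⟨b, hb, hspan, hli⟩ := exists_linearIndependent ℝ (Set.range (per Z))
  have hfin : b.Finite := hli.setFinite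
  obtain ⟨m, ⟨eqv⟩⟩ : ∃ m, Nonempty (Fin m ≃ b) := by
    have := hfin.fintype
    exact ⟨Fintype.card b, ⟨(Fintype.equivFin b).symm⟩⟩
  have hpre : ∀ k : Fin m, ∃ f : Fin (n + 2) → A, per Z f = (eqv k : Fin r → ℝ) :=
    fun k => hb (eqv k).2
  choose f hf using hpre
  have hli2 : LinearIndependent ℝ fun k => per Z (f k) := by
    have : (fun k => per Z (f k)) = (fun x : b => (x : Fin r → ℝ)) ∘ eqv := by
      funext k
      exact hf k
    rw [this]
    exact hli.comp eqv eqv.injective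
  have hspan2 : Submodule.span ℝ (Set.range fun k => per Z (f k)) =
      Submodule.span ℝ (Set.range (per Z)) := by
    rw [← hspan]
    congr 1
    have : (fun k => per Z (f k)) = (fun x : b => (x : Fin r → ℝ)) ∘ eqv := by
      funext k
      exact hf k
    rw [this, eqv.surjective.range_comp, Subtype.range_coe]
  have hB : ∀ k j, ∃ M : ℝ, (Z j).Small (f k) M := fun k j => (Z j).exists_bound (f k)
  choose M hM using hB
  -- convergence
  have hlim : Tendsto (fun c : ℕ => fun k => ((-1 : ℝ) ^ (n + 2) * (c : ℝ) ^ (n + 2)) •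
      regv Z c (f k)) atTop (𝓝 fun k => per Z (f k)) := by
    refine tendsto_pi_nhds.2 fun k => tendsto_pi_nhds.2 fun j => ?_
    have h := ((Z j).tendsto_reg (f k)).const_mul ((-1 : ℝ) ^ (n + 2))
    have hsq : ((-1 : ℝ)) ^ (n + 2) * (-1) ^ (n + 2) = 1 := by
      rw [← mul_pow]
      simp
    rw [← mul_assoc, hsq, one_mul] at h
    refine h.congr fun c => ?_
    rw [← mul_assoc]
    rfl
  have hopen := isOpen_setOfPred_linearIndependent (𝕜 := ℝ) (E := Fin r → ℝ) (ι := Fin m)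
  have hev := hlim.eventually (hopen.mem_nhds hli2)
  have hMev : ∀ᶠ c : ℕ in atTop, ∀ k j, M k j ≤ c := by
    refine eventually_all.2 fun k => eventually_all.2 fun j => ?_
    filter_upwards [eventually_ge_atTop ⌈M k j⌉₊] with c hc
    exact (Nat.le_ceil _).trans (by exact_mod_cast hc)
  obtain ⟨C, hC⟩ := eventually_atTop.1 ((hev.and hMev).and (eventually_gt_atTop 0))
  refine ⟨m, f, C, fun c hc => ?_⟩
  obtain ⟨⟨h1, h2⟩, h3⟩ := hC c hc
  have hs : ∀ k j, (Z j).Small (f k) c := fun k j l θ hθ i => (hM k j l θ hθ i).trans_le (h2 k j)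
  have hcne : ((-1 : ℝ) ^ (n + 2) * (c : ℝ) ^ (n + 2)) ≠ 0 := by
    have : (c : ℝ) ≠ 0 := by exact_mod_cast h3.ne'
    exact mul_ne_zero (pow_ne_zero _ (by norm_num)) (pow_ne_zero _ this)
  have hli3 : LinearIndependent ℝ fun k => regv Z c (f k) := by
    have h4 : LinearIndependent ℝ (fun k => ((-1 : ℝ) ^ (n + 2) * (c : ℝ) ^ (n + 2)) •
      regv Z c (f k)) := h1
    have h5 := h4.units_smul fun _ => (Units.mk0 _ hcne)⁻¹
    refine (linearIndependent_equiv' (Equiv.refl _) ?_).1 h5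
    funext k
    simp only [Function.comp_apply, Equiv.refl_apply, Pi.smul_apply']
    rw [Units.smul_def, smul_smul, Units.val_inv_eq_inv_val, Units.val_mk0,
      inv_mul_cancel₀ hcne, one_smul]
  refine ⟨hs, hli3, ?_⟩
  rw [closure_rat]
  have hle : Submodule.span ℝ (Set.range fun k => regv Z c (f k)) ≤
      Submodule.span ℝ (Set.range (per Z)) := by
    rw [Submodule.span_le]
    rintro _ ⟨k, rfl⟩
    exact (compatible_iff Z _).1 (compatible_regv Z h3 (hs k))
  have hrank : Module.finrank ℝ (Submodule.span ℝ (Set.range fun k => regv Z c (f k))) =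
      Module.finrank ℝ (Submodule.span ℝ (Set.range (per Z))) := by
    rw [← hspan2, finrank_span_eq_card hli3, finrank_span_eq_card hli2]
  rw [Submodule.eq_of_le_of_finrank_eq hle hrank]
  ext ρ
  exact (compatible_iff Z ρ).symm

end rel

end Pool.Agent.U374.Dn
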